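import Pool.Agent.H555.Few.Half

set_option autoImplicit false

/-! # Random subsets with a given number of elements -/

open Finset

namespace Pool.Agent.H555.Few

open Pool.Agent.Y881.SP Pool.Agent.K7.H67.BG Pool.Agent.H555.Sieg

variable {p : ℕ} [Fact p.Prime] (n : ℕ) (v : ℕ → ZMod p)

/-- the subsets with `m` elements and with the sum `b` -/
def Bs (m : ℕ) (b : ZMod p) : Finset (Finset ℕ) :=
  ((Icc 1 n).powersetCard m).filter fun A => ∑ a ∈ A, v a = b

theorem peel (m : ℕ) (b : ZMod p) :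
    (m + 1) * (Bs n v (m + 1) b).card ≤ ∑ a ∈ Icc 1 n, (Bs n v m (b - v a)).card := by
  classical
  have h1 : (m + 1) * (Bs n v (m + 1) b).card = ∑ A ∈ Bs n v (m + 1) b, ∑ a ∈ Icc 1 n, if a ∈ A then 1 else 0 := by
    rw [mul_comm, ← smul_eq_mul, ← sum_const]
    refine sum_congr rfl fun A hA => ?_
    unfold Bs at hA
    rw [mem_filter, mem_powersetCard] at hA
    rw [← card_filter, filter_mem_eq_inter, inter_eq_right.2 hA.1.1, hA.1.2]
  rw [h1, sum_comm]
  refine sum_le_sum fun a ha => ?_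
  rw [← card_filter]
  refine card_le_card_of_injOn (fun A => A.erase a) ?_ ?_
  · intro A hA
    unfold Bs at hA ⊢
    rw [mem_coe, mem_filter, mem_filter, mem_powersetCard] at hA
    obtain ⟨⟨⟨h2, h3⟩, h4⟩, h5⟩ := hA
    rw [mem_coe, mem_filter, mem_powersetCard]
    refine ⟨⟨(erase_subset _ _).trans h2, ?_⟩, ?_⟩
    · rw [card_erase_of_mem h5, h3, Nat.add_sub_cancel]
    · rw [← h4, ← add_sum_erase A v h5, add_sub_cancel_left]
  · intro A hA A' hA' h
    rw [mem_coe, mem_filter] at hA hA'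
    simp only at h
    rw [← insert_erase hA.2, h, insert_erase hA'.2]

/-- the law of the sum of a random subset with `m` elements -/
noncomputable def Pm (m : ℕ) (b : ZMod p) : ℝ := (Bs n v m b).card / (n.choose m : ℝ)

theorem Pm_nonneg (m : ℕ) (b : ZMod p) : 0 ≤ Pm n v m b := by unfold Pm; positivity

theorem Pm_sum (m : ℕ) (hm : m ≤ n) : ∑ b, Pm n v m b = 1 := by
  classical
  unfold Pm
  rw [← sum_div]
  have h1 : ∑ b : ZMod p, ((Bs n v m b).card : ℝ) = n.choose m := by
    have h2 := card_eq_sum_card_fiberwise (s := (Icc 1 n).powersetCard m) (t := (univ : Finset (ZMod p)))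
      (f := fun A => ∑ a ∈ A, v a) (fun _ _ => mem_coe.2 (mem_univ _))
    rw [card_powersetCard, Nat.card_Icc, Nat.add_sub_cancel] at h2
    rw [h2]
    push_cast
    rfl
  rw [h1, div_self]
  have := Nat.choose_pos hm
  positivity

theorem Pm_succ (m : ℕ) (hm : m < n) (b : ZMod p) :
    Pm n v (m + 1) b ≤ (n : ℝ) / (n - m) * ∑ y, wh n v y * Pm n v m (b - y) := by
  have hn0 : (0 : ℝ) < n := by exact_mod_cast (by omega : 0 < n)
  have hnm : (0 : ℝ) < (n : ℝ) - m := by
    have : (m : ℝ) < n := by exact_mod_cast hm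
    linarith
  have h1 := wh_test n v (fun y => Pm n v m (b - y))
  simp only [smul_eq_mul] at h1
  rw [h1]
  have h2 : ((m : ℝ) + 1) * (Bs n v (m + 1) b).card ≤ ∑ a ∈ Icc 1 n, ((Bs n v m (b - v a)).card : ℝ) := by
    exact_mod_cast peel n v m b
  have h3 : ((n.choose (m + 1) : ℕ) : ℝ) * (m + 1) = n.choose m * ((n : ℝ) - m) := by
    have := Nat.choose_succ_right_eq n m
    rw [← Nat.cast_sub hm.le]
    exact_mod_cast this
  have hc1 : (0 : ℝ) < n.choose (m + 1) := by exact_mod_cast Nat.choose_pos (by omega : m + 1 ≤ n)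
  have hc0 : (0 : ℝ) < n.choose m := by exact_mod_cast Nat.choose_pos hm.le
  unfold Pm
  rw [← sum_div, div_le_iff₀ hc1]
  have h4 : (n : ℝ) / (n - m) * ((n : ℝ)⁻¹ * ((∑ a ∈ Icc 1 n, ((Bs n v m (b - v a)).card : ℝ)) / n.choose m)) *
      n.choose (m + 1) = (∑ a ∈ Icc 1 n, ((Bs n v m (b - v a)).card : ℝ)) / (m + 1) := by
    have h5 : ((n.choose (m + 1) : ℕ) : ℝ) = n.choose m * ((n : ℝ) - m) / (m + 1) := by
      rw [eq_div_iff (by positivity), h3]
    rw [h5]
    field_simp
  rw [h4, le_div_iff₀ (by positivity), mul_comm]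
  exact h2

theorem Pm_add (L : ℕ) (hL : L < n) (m : ℕ) (q : ℕ) : m + q ≤ L → ∀ b : ZMod p,
    Pm n v (m + q) b ≤ ((n : ℝ) / (n - L)) ^ q * ∑ y, it (wh n v) q y * Pm n v m (b - y) := by
  have hLn : (0 : ℝ) < (n : ℝ) - L := by
    have : (L : ℝ) < n := by exact_mod_cast hL
    linarith
  induction q with
  | zero =>
    intro _ b
    rw [pow_zero, one_mul, add_zero, sum_eq_single 0]
    · rw [it_zero, if_pos rfl, one_mul, sub_zero]
    · intro y _ hy
      rw [it_zero, if_neg hy, zero_mul]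
    · intro h; exact absurd (mem_univ _) h
  | succ q ih =>
    intro hq b
    have h1 := Pm_succ n v (m + q) (by omega) b
    rw [← add_assoc]
    have h2 : (n : ℝ) / (n - (m + q : ℕ)) ≤ (n : ℝ) / (n - L) := by
      refine div_le_div_of_nonneg_left (Nat.cast_nonneg _) hLn ?_
      have : ((m + q : ℕ) : ℝ) ≤ L := by exact_mod_cast (by omega : m + q ≤ L)
      linarith
    have h3 : ∑ y, wh n v y * Pm n v (m + q) (b - y) ≤
        ∑ y, wh n v y * (((n : ℝ) / (n - L)) ^ q * ∑ z, it (wh n v) q z * Pm n v m (b - y - z)) :=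
      sum_le_sum fun y _ => mul_le_mul_of_nonneg_left (ih (by omega) _) (wh_nonneg n v y)
    have h4 : ∑ y, wh n v y * (((n : ℝ) / (n - L)) ^ q * ∑ z, it (wh n v) q z * Pm n v m (b - y - z)) =
        ((n : ℝ) / (n - L)) ^ q * ∑ z, it (wh n v) (q + 1) z * Pm n v m (b - z) := by
      simp only [it_succ, sum_mul]
      rw [sum_comm (s := univ) (t := univ) (f := fun z y => wh n v y * it (wh n v) q (z - y) * Pm n v m (b - z)),
        mul_sum]
      refine sum_congr rfl fun y _ => ?_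
      rw [← Equiv.sum_comp (Equiv.addRight y) (fun z => wh n v y * it (wh n v) q (z - y) * Pm n v m (b - z))]
      simp only [Equiv.coe_addRight, add_sub_cancel_right]
      rw [mul_left_comm, mul_sum, mul_sum, mul_sum]
      refine sum_congr rfl fun z _ => ?_
      rw [show b - (z + y) = b - y - z by ring]
      ring
    have h0 : 0 ≤ ∑ y, wh n v y * Pm n v (m + q) (b - y) :=
      sum_nonneg fun y _ => mul_nonneg (wh_nonneg n v y) (Pm_nonneg n v _ _)
    calc Pm n v (m + q + 1) b ≤ (n : ℝ) / (n - (m + q : ℕ)) * ∑ y, wh n v y * Pm n v (m + q) (b - y) := h1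
      _ ≤ (n : ℝ) / (n - L) * ∑ y, wh n v y * Pm n v (m + q) (b - y) := mul_le_mul_of_nonneg_right h2 h0
      _ ≤ (n : ℝ) / (n - L) * (((n : ℝ) / (n - L)) ^ q * ∑ z, it (wh n v) (q + 1) z * Pm n v m (b - z)) := by
          refine mul_le_mul_of_nonneg_left (h3.trans (le_of_eq h4)) (by positivity)
      _ = _ := by rw [pow_succ]; ring

/-- the sum of a random subset with at least `q` and at most `L` elements -/
theorem cond (L q : ℕ) (hL : L < n) (S : ℝ) (hS : ∀ x, it (wh n v) q x ≤ S)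
    (δ : ℝ) (h0 : 0 ≤ δ) (h1 : δ ≤ 1 / 2) (b : ZMod p) :
    ∑ A ∈ (Icc 1 n).powerset, (if (q ≤ #A ∧ #A ≤ L) ∧ ∑ a ∈ A, v a = b then wt δ n A else 0) ≤
      ((n : ℝ) / (n - L)) ^ q * S := by
  classical
  have hLn : (0 : ℝ) < (n : ℝ) - L := by
    have : (L : ℝ) < n := by exact_mod_cast hL
    linarith
  have hP : ∀ k, q ≤ k → k ≤ L → Pm n v k b ≤ ((n : ℝ) / (n - L)) ^ q * S := by
    intro k hq hk
    obtain ⟨m, rfl⟩ : ∃ m, k = m + q := ⟨k - q, by omega⟩
    refine (Pm_add n v L hL m q hk b).trans ?_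
    refine mul_le_mul_of_nonneg_left ?_ (by positivity)
    calc ∑ y, it (wh n v) q y * Pm n v m (b - y) ≤ ∑ y, S * Pm n v m (b - y) :=
          sum_le_sum fun y _ => mul_le_mul_of_nonneg_right (hS y) (Pm_nonneg n v _ _)
      _ = S := by
          rw [← mul_sum]
          have := Equiv.sum_comp (Equiv.subLeft b) (fun y => Pm n v m y)
          simp only [Equiv.subLeft_apply] at this
          rw [this, Pm_sum n v m (by omega), mul_one]
  have hS0 : 0 ≤ S := by
    refine le_trans ?_ (hS 0)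
    exact it_nonneg _ (wh_nonneg n v) q 0
  have hρ0 : 0 ≤ ((n : ℝ) / (n - L)) ^ q * S := by positivity
  have hw := wt_sum δ n
  rw [sum_powerset] at hw ⊢
  rw [← mul_one (((n : ℝ) / (n - L)) ^ q * S), ← hw, mul_sum]
  refine sum_le_sum fun k hk => ?_
  rw [mem_range, Nat.card_Icc] at hk
  have hkn : k ≤ n := by omega
  have hc : (0 : ℝ) < n.choose k := by exact_mod_cast Nat.choose_pos hkn
  have e1 : ∑ A ∈ powersetCard k (Icc 1 n), wt δ n A = n.choose k * (δ ^ k * (1 - δ) ^ (n - k)) := by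
    have : ∀ A ∈ powersetCard k (Icc 1 n), wt δ n A = δ ^ k * (1 - δ) ^ (n - k) := by
      intro A hA
      rw [mem_powersetCard] at hA
      unfold wt
      rw [hA.2]
    rw [sum_congr rfl this, sum_const, card_powersetCard, Nat.card_Icc, Nat.add_sub_cancel, nsmul_eq_mul]
  have hnn : 0 ≤ δ ^ k * (1 - δ) ^ (n - k) := by
    have : 0 ≤ 1 - δ := by linarith
    positivity
  by_cases hkq : q ≤ k ∧ k ≤ L
  · have e2 : ∑ A ∈ powersetCard k (Icc 1 n), (if (q ≤ #A ∧ #A ≤ L) ∧ ∑ a ∈ A, v a = b then wt δ n A else 0) =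
        (Bs n v k b).card * (δ ^ k * (1 - δ) ^ (n - k)) := by
      have h3 : ∀ A ∈ powersetCard k (Icc 1 n),
          (if (q ≤ #A ∧ #A ≤ L) ∧ ∑ a ∈ A, v a = b then wt δ n A else 0) =
          if ∑ a ∈ A, v a = b then δ ^ k * (1 - δ) ^ (n - k) else 0 := by
        intro A hA
        rw [mem_powersetCard] at hA
        unfold wt
        rw [hA.2]
        simp only [hkq, and_self, true_and]
      rw [sum_congr rfl h3, ← sum_filter, sum_const, nsmul_eq_mul]
      rfl
    rw [e1, e2]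
    have h3 := hP k hkq.1 hkq.2
    unfold Pm at h3
    rw [div_le_iff₀ hc] at h3
    calc ((Bs n v k b).card : ℝ) * (δ ^ k * (1 - δ) ^ (n - k))
        ≤ ((n : ℝ) / (n - L)) ^ q * S * n.choose k * (δ ^ k * (1 - δ) ^ (n - k)) :=
          mul_le_mul_of_nonneg_right h3 hnn
      _ = _ := by ring
  · rw [e1]
    have h3 : ∀ A ∈ powersetCard k (Icc 1 n),
        (if (q ≤ #A ∧ #A ≤ L) ∧ ∑ a ∈ A, v a = b then wt δ n A else 0) = 0 := by
      intro A hA
      rw [mem_powersetCard] at hA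
      rw [hA.2, if_neg]
      exact fun h => hkq h.1
    rw [sum_eq_zero h3]
    positivity

end Pool.Agent.H555.Few
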