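import Pool.Graph.R_seed8.Y881.SP.Flat

set_option autoImplicit false

/-! # Flattening at the scale of a small subgroup

`Pool.Agent.Y881.SP.flat` with a parameter `T`, `T ^ 5 ≤ p`, in place of `p`. -/

open Finset

namespace Pool.Agent.H555.Few

open Pool.Agent.Y881.SP

/-- the number of the near-symmetric dilations is polynomial in the inverse of the norm -/
theorem sym_card_small {p : ℕ} [Fact p.Prime] (ρ : ZMod p → ℝ) (h0 : ∀ x, 0 ≤ ρ x)
    (h1 : ∑ x, ρ x = 1) (K : ℝ) (hK : 0 < K) (hN : 2 * K * ∑ x, ρ x ^ 2 ≤ 1) :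
    ((sym ρ K).card : ℝ) * ∑ x, ρ x ^ 2 ≤ 4 * K := by
  have hp0 : (0 : ℝ) < p := by exact_mod_cast (Fact.out : p.Prime).pos
  have hp1 : (1 : ℝ) ≤ p := by exact_mod_cast (Fact.out : p.Prime).one_lt.le
  obtain ⟨N, hNd⟩ : ∃ N : ℝ, N = ∑ x, ρ x ^ 2 := ⟨_, rfl⟩
  rw [← hNd] at hN ⊢
  have hN0 : 0 ≤ N := by rw [hNd]; exact sum_nonneg fun x _ => by positivity
  have hN1 : N ≤ 1 := by
    rw [hNd, ← h1]
    refine sum_le_sum fun x _ => ?_
    have hx1 : ρ x ≤ 1 := by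
      rw [← h1]
      exact single_le_sum (f := ρ) (fun y _ => h0 y) (mem_univ x)
    nlinarith [h0 x]
  -- the diagonal
  have hJ : ∀ μ : ZMod p, p * N ^ 2 ≤ J ρ μ := by
    intro μ
    rw [J_eq]
    refine mul_le_mul_of_nonneg_left ?_ hp0.le
    have h2 : ∀ z : ZMod p, ∑ y, (ρ (z - μ * y) * ρ y) ^ 2 ≤ conv ρ μ z ^ 2 := by
      intro z
      exact sum_sq_le_sq_sum_of_nonneg fun y _ => mul_nonneg (h0 _) (h0 _)
    refine le_trans (le_of_eq ?_) (sum_le_sum fun z _ => h2 z)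
    rw [sum_comm]
    have h3 : ∀ y : ZMod p, ∑ z, (ρ (z - μ * y) * ρ y) ^ 2 = N * ρ y ^ 2 := by
      intro y
      rw [hNd, sum_mul, ← Equiv.sum_comp (Equiv.subRight (μ * y)) (fun x => ρ x ^ 2 * ρ y ^ 2)]
      refine sum_congr rfl fun z _ => ?_
      rw [Equiv.subRight_apply, mul_pow]
    rw [sum_congr rfl fun y _ => h3 y, ← mul_sum, ← hNd, sq]
  have h2 := sum_J_le ρ h1 _ rfl
  rw [← hNd] at h2
  have h3 : ((sym ρ K).card : ℝ) * (p * N / (2 * K)) ≤
      ∑ μ ∈ univ.erase (0 : ZMod p), (J ρ μ - p * N ^ 2) := by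
    rw [← nsmul_eq_mul]
    have hs : sym ρ K ⊆ univ.erase (0 : ZMod p) := fun μ hμ =>
      mem_erase.2 ⟨(mem_filter.1 hμ).2.1, mem_univ _⟩
    refine (card_nsmul_le_sum _ _ _ fun μ hμ => ?_).trans
      (sum_le_sum_of_subset_of_nonneg hs fun μ _ _ => by linarith [hJ μ])
    have h4 := (mem_filter.1 hμ).2.2
    rw [← hNd] at h4
    have h5 : p * N / K ≤ J ρ μ := by rw [div_le_iff₀ hK]; linarith
    have h6 : p * N ^ 2 ≤ p * N / (2 * K) := by
      rw [le_div_iff₀ (by positivity)]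
      have := mul_le_mul_of_nonneg_left hN (by positivity : 0 ≤ p * N)
      nlinarith
    have h7 : p * N / K = p * N / (2 * K) + p * N / (2 * K) := by field_simp; ring
    linarith
  have h4 : ∑ μ ∈ univ.erase (0 : ZMod p), (J ρ μ - p * N ^ 2) ≤ 2 * p := by
    rw [sum_sub_distrib, sum_const, card_erase_of_mem (mem_univ _), card_univ, ZMod.card,
      nsmul_eq_mul, Nat.cast_sub (Fact.out : p.Prime).one_lt.le, Nat.cast_one]
    have h5 : N ^ 2 ≤ 1 := by nlinarith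
    have h6 := mul_le_mul_of_nonneg_left h5 hp0.le
    nlinarith
  have h5 := h3.trans h4
  have h6 : ((sym ρ K).card : ℝ) * N * (p / (2 * K)) ≤ 4 * K * (p / (2 * K)) := by
    calc _ = ((sym ρ K).card : ℝ) * (p * N / (2 * K)) := by ring
      _ ≤ 2 * p := h5
      _ = _ := by field_simp; ring
  exact le_of_mul_le_mul_right h6 (by positivity)

/-- Few dilations correlate with a density whose norm is between `T⁻¹` and `T⁻³`. -/
theorem flatT : ∃ κ : ℝ, 0 < κ ∧ ∃ T₀ : ℝ, 3 ≤ T₀ ∧ ∀ (p : ℕ) [Fact p.Prime] (q : ℝ),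
    T₀ ≤ q → q ^ 5 ≤ p → ∀ ρ : ZMod p → ℝ, (∀ x, 0 ≤ ρ x) → ∑ x, ρ x = 1 →
      (q ^ 3)⁻¹ ≤ ∑ x, ρ x ^ 2 → ∑ x, ρ x ^ 2 ≤ q⁻¹ →
      ((sym ρ (q ^ κ)).card : ℝ) < q := by
  obtain ⟨I, hI⟩ : ∃ I : ℕ, I = 4001 := ⟨_, rfl⟩
  set κ : ℝ := 1 / 10000 / 5 ^ I with hκ
  have hκ0 : 0 < κ := by positivity
  refine ⟨κ, hκ0, max 3 ((2 : ℝ) ^ (1 / κ)), le_max_left _ _, fun p _ q hq hqp ρ h0 h1 hlo hhi => ?_⟩
  by_contra hcon
  have hcon := not_lt.1 hcon
  have hq3 : (3 : ℝ) ≤ q := (le_max_left _ _).trans hq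
  have hq0 : 0 < q := by linarith
  have hq1 : 1 < q := by linarith
  obtain ⟨N, hNd⟩ : ∃ N : ℝ, N = ∑ x, ρ x ^ 2 := ⟨_, rfl⟩
  rw [← hNd] at hlo hhi
  have hN0 : 0 < N := lt_of_lt_of_le (by positivity) hlo
  have hp0 : (0 : ℝ) < p := by exact_mod_cast (Fact.out : p.Prime).pos
  set P : ℝ := p * N with hP
  have hP0 : 0 < P := mul_pos hp0 hN0
  have hbig2 : 2 ≤ q ^ κ := by
    have h2 : (2 : ℝ) ^ (1 / κ) ≤ q := (le_max_right _ _).trans hq
    calc (2 : ℝ) = ((2 : ℝ) ^ (1 / κ)) ^ κ := by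
          rw [← Real.rpow_mul (by norm_num), one_div_mul_cancel hκ0.ne', Real.rpow_one]
      _ ≤ q ^ κ := Real.rpow_le_rpow (by positivity) h2 hκ0.le
  -- scales
  set Ks : ℕ → ℝ := fun i => q ^ (κ * 5 ^ i) with hKs
  have hKs0 : ∀ i, 0 < Ks i := fun i => Real.rpow_pos_of_pos hq0 _
  have hKs2 : ∀ i, 2 ≤ Ks i := fun i => by
    refine hbig2.trans (Real.rpow_le_rpow_of_exponent_le hq1.le ?_)
    have : (1 : ℝ) ≤ 5 ^ i := one_le_pow₀ (by norm_num)
    nlinarith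
  have hKs5 : ∀ i, Ks (i + 1) = Ks i ^ 5 := fun i => by
    simp only [hKs]
    rw [← Real.rpow_natCast (q ^ (κ * 5 ^ i)) 5, ← Real.rpow_mul hq0.le]
    congr 1
    push_cast
    ring
  have hKs4 : ∀ i, 2 * Ks i ^ 4 ≤ Ks (i + 1) := fun i => by
    rw [hKs5, pow_succ (Ks i) 4, mul_comm]
    exact mul_le_mul_of_nonneg_left (hKs2 i) (pow_nonneg (hKs0 i).le 4)
  set y : ℝ := q ^ (1 / 10000 : ℝ) with hy
  have hy0 : 0 < y := Real.rpow_pos_of_pos hq0 _
  have hKsy : ∀ i ≤ I, Ks i ≤ y := fun i hi => by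
    refine Real.rpow_le_rpow_of_exponent_le hq1.le ?_
    rw [hκ, div_mul_eq_mul_div, div_le_iff₀ (by positivity)]
    refine mul_le_mul_of_nonneg_left ?_ (by positivity)
    exact pow_le_pow_right₀ (by norm_num) hi
  have hy2 : 2 ≤ y := (hKs2 0).trans (hKsy 0 (Nat.zero_le _))
  have hyγ : q = y ^ 10000 := by
    rw [hy, ← Real.rpow_natCast, ← Real.rpow_mul hq0.le]
    norm_num
  have hyT : q ^ (1 / 1000 : ℝ) = y ^ 10 := by
    rw [hy, ← Real.rpow_natCast, ← Real.rpow_mul hq0.le]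
    congr 1
    norm_num
  have hyq : 2 * y ≤ q := by
    rw [hyγ]
    calc 2 * y ≤ y * y := by nlinarith
      _ = y ^ 2 := by ring
      _ ≤ y ^ 10000 := pow_le_pow_right₀ (by linarith) (by norm_num)
  set T : ℝ := q ^ (1 / 1000 : ℝ) with hT
  have hT0 : 0 < T := Real.rpow_pos_of_pos hq0 _
  have hT1 : 1 ≤ T := Real.one_le_rpow hq1.le (by positivity)
  have hle0 : ∀ i, q ≤ ((sym ρ (Ks i)).card : ℝ) := fun i => by
    refine hcon.trans ?_
    have h2 : q ^ κ ≤ Ks i := by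
      refine Real.rpow_le_rpow_of_exponent_le hq1.le ?_
      have : (1 : ℝ) ≤ 5 ^ i := one_le_pow₀ (by norm_num)
      nlinarith
    exact_mod_cast card_le_card (sym_mono ρ h2)
  -- the upper bound
  have hup : ∀ i ≤ I, ((sym ρ (Ks i)).card : ℝ) ≤ 4 * y * q ^ 3 := by
    intro i hi
    have h2 := sym_card_small ρ h0 h1 (Ks i) (hKs0 i) (by
      rw [← hNd]
      calc 2 * Ks i * N ≤ 2 * y * q⁻¹ :=
            mul_le_mul (by linarith [hKsy i hi]) hhi hN0.le (by positivity)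
        _ ≤ q * q⁻¹ := mul_le_mul_of_nonneg_right hyq (by positivity)
        _ = 1 := mul_inv_cancel₀ hq0.ne')
    rw [← hNd] at h2
    have h3 : ((sym ρ (Ks i)).card : ℝ) * (q ^ 3)⁻¹ ≤ 4 * y := by
      calc _ ≤ ((sym ρ (Ks i)).card : ℝ) * N := mul_le_mul_of_nonneg_left hlo (Nat.cast_nonneg _)
        _ ≤ 4 * Ks i := h2
        _ ≤ 4 * y := by linarith [hKsy i hi]
    rwa [← div_eq_mul_inv, div_le_iff₀ (by positivity)] at h3
  -- pigeonhole
  obtain ⟨i, hiI, hi⟩ : ∃ i < I, ((sym ρ (Ks (i + 1))).card : ℝ) ≤ T * (sym ρ (Ks i)).card := by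
    by_contra hno
    push Not at hno
    have hgrow : ∀ i ≤ I, T ^ i ≤ ((sym ρ (Ks i)).card : ℝ) := by
      intro i
      induction i with
      | zero =>
        intro _
        rw [pow_zero]
        exact hq1.le.trans (hle0 0)
      | succ i ih =>
        intro hi
        have h2 := ih (by omega)
        have h3 := hno i (by omega)
        rw [pow_succ, mul_comm]
        exact (mul_le_mul_of_nonneg_left h2 hT0.le).trans h3.le
    have h2 := (hgrow I le_rfl).trans (hup I le_rfl)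
    have h3 : 4 * y * q ^ 3 < T ^ I := by
      rw [hyT, hyγ, hI]
      calc 4 * y * (y ^ 10000) ^ 3 = 4 * y ^ 30001 := by
            rw [← pow_mul]
            ring
        _ ≤ y ^ 2 * y ^ 30001 := by
            refine mul_le_mul_of_nonneg_right ?_ (by positivity)
            nlinarith
        _ = y ^ 30003 := by rw [← pow_add]
        _ < y ^ (10 * 4001) := pow_lt_pow_right₀ (by linarith) (by norm_num)
        _ = _ := by rw [pow_mul]
    linarith
  have hKi1 : 1 ≤ Ks i := by linarith [hKs2 i]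
  have hKiy : Ks i ≤ y := hKsy i hiI.le
  have hyγ' : y ^ 10000 = q := hyγ.symm
  -- the scale
  have hbigM : 4 * Ks i ^ 4 ≤ ((sym ρ (Ks i)).card : ℝ) := by
    refine le_trans ?_ (hle0 i)
    rw [hyγ]
    calc 4 * Ks i ^ 4 ≤ 4 * y ^ 4 := by
          have := pow_le_pow_left₀ (hKs0 i).le hKiy 4
          linarith
      _ ≤ y ^ 2 * y ^ 4 := by
          refine mul_le_mul_of_nonneg_right ?_ (by positivity)
          nlinarith
      _ = y ^ 6 := by ring
      _ ≤ y ^ 10000 := pow_le_pow_right₀ (by linarith) (by norm_num)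
  have hMM : ((sym ρ (2 * Ks i ^ 4)).card : ℝ) ≤ T * (sym ρ (Ks i)).card := by
    refine le_trans ?_ hi
    exact_mod_cast card_le_card (sym_mono ρ (hKs4 i))
  have hPs : P = p * ∑ x, ρ x ^ 2 := by rw [hP, hNd]
  unfold sym at hbigM hMM
  rw [← hPs] at hbigM hMM
  obtain ⟨M1, hM1, hM1a, hM1b⟩ := step ρ h0 h1 P hP0 hPs (Ks i) T hKi1 hT1 hbigM hMM
  have hM1s : M1 ⊆ sym ρ (Ks i) := by
    unfold sym
    rw [← hPs]
    exact hM1
  have hM1a' : ((sym ρ (Ks i)).card : ℝ) ≤ 8 * (16 * Ks i ^ 8 * T) * M1.card := by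
    unfold sym
    rw [← hPs]
    exact hM1a
  set K1 : ℝ := 16 * Ks i ^ 8 * T with hK1
  have hK10 : 0 ≤ K1 := by positivity
  have hK1y : K1 ≤ 16 * y ^ 18 := by
    rw [hK1, hyT]
    calc 16 * Ks i ^ 8 * y ^ 10 ≤ 16 * y ^ 8 * y ^ 10 := by
          have := pow_le_pow_left₀ (hKs0 i).le hKiy 8
          gcongr
      _ = _ := by ring
  rcases hM1b with hb | hb
  · have h2 : q ≤ 8 * K1 * (256 * (2 ^ 22 * K1 ^ 10) ^ 38) :=
      (hle0 i).trans (hM1a'.trans (mul_le_mul_of_nonneg_left hb (by positivity)))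
    have h3 := num_a K1 y hK10 hK1y hy2
    rw [hyγ'] at h3
    linarith
  · have h2 : (M1.card : ℝ) ≤ 4 * y * q ^ 3 := by
      have h3 : (M1.card : ℝ) ≤ (sym ρ (Ks i)).card := by exact_mod_cast card_le_card hM1s
      exact h3.trans (hup i hiI.le)
    have h3 : (p : ℝ) ≤ (64 * (2 ^ 22 * K1 ^ 10) ^ 24 * (2 * y)) * (2 * q ^ 3) := by
      calc (p : ℝ) ≤ 64 * (2 ^ 22 * K1 ^ 10) ^ 24 * M1.card := hb
        _ ≤ 64 * (2 ^ 22 * K1 ^ 10) ^ 24 * (4 * y * q ^ 3) :=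
            mul_le_mul_of_nonneg_left h2 (by positivity)
        _ = _ := by ring
    have h6 := num_b K1 y hK10 hK1y hy2
    rw [hyγ'] at h6
    have h7 : (64 * (2 ^ 22 * K1 ^ 10) ^ 24 * (2 * y)) * (2 * q ^ 3) < q * (2 * q ^ 3) :=
      mul_lt_mul_of_pos_right h6 (by positivity)
    have h8 : q * (2 * q ^ 3) ≤ q ^ 5 := by
      have : q ^ 5 = q * (q * q ^ 3) := by ring
      rw [this]
      refine mul_le_mul_of_nonneg_left ?_ hq0.le
      exact mul_le_mul_of_nonneg_right (by linarith) (by positivity)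
    linarith

end Pool.Agent.H555.Few
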