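import Pool.Agent.H555.Few.Iter
import Pool.Agent.H555.Sieg.Four

set_option autoImplicit false

/-! # The law of a random element of a half system -/

open Finset

namespace Pool.Agent.H555.Few

open Pool.Agent.Y881.SP Pool.Agent.K7.H67.BG Pool.Agent.H555.Sieg

variable {p : ℕ} [Fact p.Prime]

theorem sum_period (f : ℕ → ℝ) (T : ℕ) (hf : ∀ k, f (k + T) = f k) (D : ℕ) :
    ∑ k ∈ range (D * T), f k = D * ∑ m ∈ Icc 1 T, f m := by
  have h1 : ∑ m ∈ Icc 1 T, f m = ∑ k ∈ range T, f k := by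
    have e : Icc 1 T = (range T).map (addRightEmbedding 1) := by
      ext x
      simp only [mem_Icc, mem_map, mem_range, addRightEmbedding_apply]
      constructor
      · intro h; exact ⟨x - 1, by omega, by omega⟩
      · rintro ⟨y, hy, rfl⟩; omega
    rw [e, sum_map]
    simp only [addRightEmbedding_apply]
    have h2 := sum_range_succ' f T
    have h3 := sum_range_succ f T
    have h4 := hf 0
    rw [zero_add] at h4
    linarith
  rw [h1]
  have hf' : ∀ D k, f (D * T + k) = f k := by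
    intro D
    induction D with
    | zero => intro k; rw [zero_mul, zero_add]
    | succ D ih =>
      intro k
      rw [add_mul, one_mul, show D * T + T + k = (D * T + k) + T by ring, hf, ih]
  induction D with
  | zero => simp
  | succ D ih =>
    rw [add_mul, one_mul, sum_range_add, ih]
    rw [sum_congr rfl fun k _ => hf' D k]
    push_cast
    ring

theorem units_sum {g : (ZMod p)ˣ} (hg : orderOf g = p - 1) (e : ℕ) (c : ZMod p) (hc : c ≠ 0)
    (F : ZMod p → ℝ) :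
    (orderOf (g ^ e) : ℝ) * ∑ u : (ZMod p)ˣ, F (c * (u : ZMod p) ^ e) =
      ((p - 1 : ℕ) : ℝ) * ∑ x ∈ cs c (g ^ e), F x := by
  classical
  obtain ⟨D, hD⟩ : orderOf (g ^ e) ∣ p - 1 := hg ▸ orderOf_pow_dvd e
  have huniv : (univ : Finset (ZMod p)ˣ) = (range (p - 1)).image fun k => g ^ k := by
    symm
    refine eq_univ_of_card _ ?_
    rw [card_image_of_injOn, card_range, ZMod.card_units]
    intro a ha b hb h
    rw [mem_coe, mem_range] at ha hb
    exact pow_injOn_Iio_orderOf (by rw [hg]; exact ha) (by rw [hg]; exact hb) h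
  have h1 : ∑ u : (ZMod p)ˣ, F (c * (u : ZMod p) ^ e) =
      ∑ k ∈ range (p - 1), F (c * gv (g ^ e) k) := by
    rw [huniv, sum_image]
    · refine sum_congr rfl fun k _ => ?_
      congr 2
      unfold gv
      rw [← pow_mul, mul_comm e k, pow_mul]
      push_cast
      rfl
    · intro a ha b hb h
      rw [mem_coe, mem_range] at ha hb
      exact pow_injOn_Iio_orderOf (by rw [hg]; exact ha) (by rw [hg]; exact hb) h
  have h2 : ∑ x ∈ cs c (g ^ e), F x = ∑ m ∈ Icc 1 (orderOf (g ^ e)), F (c * gv (g ^ e) m) := by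
    unfold cs
    rw [sum_image]
    intro a ha b hb hab
    exact pw_inj (g ^ e) _ le_rfl ha hb (mul_left_cancel₀ hc hab)
  have h3 := sum_period (fun k => F (c * gv (g ^ e) k)) (orderOf (g ^ e)) (by
    intro k
    congr 2
    unfold gv
    rw [pow_add (g ^ e) k, pow_orderOf_eq_one, mul_one]) D
  rw [h1, h2, hD, mul_comm (orderOf (g ^ e)) D, h3]
  push_cast
  ring

/-- the value attached to `a` -/
def vv (c : ZMod p) (s : ℕ → ZMod p) (e a : ℕ) : ZMod p := c * (s a * (a : ZMod p) ^ e)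

theorem half_sum (n : ℕ) (hn : p = 2 * n + 1) (c : ZMod p) (s : ℕ → ZMod p)
    (hs : ∀ a, s a = 1 ∨ s a = -1) (e : ℕ) (he : Odd e) (F : ZMod p → ℝ) :
    ∑ a ∈ Icc 1 n, (F (vv c s e a) + F (-vv c s e a)) = ∑ u : (ZMod p)ˣ, F (c * (u : ZMod p) ^ e) := by
  rw [sum_units (fun x : ZMod p => F (c * x ^ e))]
  have h1 : Icc 1 (p - 1) = Icc 1 n ∪ Icc (n + 1) (2 * n) := by
    ext a
    simp only [mem_union, mem_Icc]
    omega
  have h2 : Disjoint (Icc 1 n) (Icc (n + 1) (2 * n)) := by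
    rw [disjoint_left]
    intro a ha hb
    rw [mem_Icc] at ha hb
    omega
  have h5 : ∑ a ∈ Icc (n + 1) (2 * n), F (c * (a : ZMod p) ^ e) =
      ∑ a ∈ Icc 1 n, F (-(c * (a : ZMod p) ^ e)) := by
    refine sum_bij (fun a _ => p - a) ?_ ?_ ?_ ?_
    · intro a ha
      rw [mem_Icc] at ha ⊢
      omega
    · intro a ha b hb h
      rw [mem_Icc] at ha hb
      omega
    · intro b hb
      rw [mem_Icc] at hb
      exact ⟨p - b, by rw [mem_Icc]; omega, by omega⟩
    · intro a ha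
      rw [mem_Icc] at ha
      have h3 : ((p - a : ℕ) : ZMod p) = -(a : ZMod p) := by
        rw [Nat.cast_sub (by omega), ZMod.natCast_self, zero_sub]
      rw [h3, he.neg_pow, mul_neg, neg_neg]
  rw [h1, sum_union h2, h5, ← sum_add_distrib]
  refine sum_congr rfl fun a _ => ?_
  unfold vv
  rcases hs a with h | h
  · rw [h, one_mul]
  · rw [h, neg_one_mul, mul_neg, neg_neg, add_comm]

open Classical in
/-- the law of `v a` for a random `a` -/
noncomputable def wh (n : ℕ) (v : ℕ → ZMod p) (x : ZMod p) : ℝ := #{a ∈ Icc 1 n | v a = x} / n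

theorem wh_nonneg (n : ℕ) (v : ℕ → ZMod p) (x : ZMod p) : 0 ≤ wh n v x := by
  unfold wh; positivity

theorem wh_test (n : ℕ) (v : ℕ → ZMod p) {M : Type*} [AddCommGroup M] [Module ℝ M] (F : ZMod p → M) :
    ∑ x, wh n v x • F x = (n : ℝ)⁻¹ • ∑ a ∈ Icc 1 n, F (v a) := by
  classical
  unfold wh
  rw [← sum_fiberwise (Icc 1 n) v (fun a => F (v a)), smul_sum]
  refine sum_congr rfl fun x _ => ?_
  have : ∑ a ∈ Icc 1 n with v a = x, F (v a) = ∑ a ∈ Icc 1 n with v a = x, F x :=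
    sum_congr rfl fun a ha => by rw [(mem_filter.1 ha).2]
  rw [this, sum_const, ← Nat.cast_smul_eq_nsmul ℝ, smul_smul, div_eq_inv_mul]

theorem wh_sum (n : ℕ) (hn : 0 < n) (v : ℕ → ZMod p) : ∑ x, wh n v x = 1 := by
  have h := wh_test n v (fun _ => (1 : ℝ))
  simp only [smul_eq_mul, mul_one, sum_const, Nat.card_Icc, nsmul_eq_mul, Nat.add_sub_cancel] at h
  rw [h, inv_mul_cancel₀]
  exact_mod_cast hn.ne'

theorem ft_wh (n : ℕ) (v : ℕ → ZMod p) (ξ : ZMod p) :
    ft (wh n v) ξ = (n : ℂ)⁻¹ * ∑ a ∈ Icc 1 n, ZMod.stdAddChar (ξ * v a) := by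
  have h := wh_test n v (fun x => (ZMod.stdAddChar (ξ * x) : ℂ))
  unfold ft
  simp only [Complex.real_smul] at h
  rw [h]
  push_cast
  rfl

section

variable {g : (ZMod p)ˣ} (hg : orderOf g = p - 1) (n : ℕ) (hn : p = 2 * n + 1) (hn0 : 0 < n) (c : ZMod p)
  (hc : c ≠ 0) (s : ℕ → ZMod p) (hs : ∀ a, s a = 1 ∨ s a = -1) (e : ℕ) (he : Odd e)

include hg hn hn0 hc hs he

theorem wh_pair (F : ZMod p → ℝ) :
    (n : ℝ)⁻¹ * ∑ a ∈ Icc 1 n, (F (vv c s e a) + F (-vv c s e a)) =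
      2 * ∑ x, uni (cs c (g ^ e)) x * F x := by
  have h1 := units_sum hg e c hc F
  rw [← half_sum n hn c s hs e he F] at h1
  have hT : 0 < orderOf (g ^ e) := orderOf_pos _
  have hT0 : (0 : ℝ) < orderOf (g ^ e) := by exact_mod_cast hT
  have hn1 : (0 : ℝ) < n := by exact_mod_cast hn0
  have h2 : ∑ x, uni (cs c (g ^ e)) x * F x = (orderOf (g ^ e) : ℝ)⁻¹ * ∑ x ∈ cs c (g ^ e), F x := by
    unfold uni
    simp only [ite_mul, zero_mul]
    rw [← sum_filter, filter_mem_eq_inter, univ_inter, ← mul_sum, card_cs c hc]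
  rw [h2]
  have h3 : ((p - 1 : ℕ) : ℝ) = 2 * n := by
    rw [hn, Nat.add_sub_cancel]; push_cast; ring
  rw [h3] at h1
  field_simp
  linarith

theorem wh_le (x : ZMod p) : wh n (vv c s e) x ≤ 2 * uni (cs c (g ^ e)) x := by
  classical
  have h := wh_pair hg n hn hn0 c hc s hs e he (fun y => if y = x then 1 else 0)
  simp only [mul_ite, mul_one, mul_zero, sum_ite_eq', mem_univ, if_true] at h
  rw [← h, sum_add_distrib, mul_add]
  unfold wh
  rw [div_eq_inv_mul, sum_boole]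
  have : 0 ≤ (n : ℝ)⁻¹ * ∑ a ∈ Icc 1 n, (if -vv c s e a = x then (1 : ℝ) else 0) := by
    refine mul_nonneg (by positivity) (sum_nonneg fun a _ => ?_)
    split_ifs <;> norm_num
  linarith

/-- even functions do not see the signs -/
theorem wh_even (F : ZMod p → ℝ) (hF : ∀ x, F (-x) = F x) :
    (n : ℝ)⁻¹ * ∑ a ∈ Icc 1 n, F (vv c s e a) = ∑ x, uni (cs c (g ^ e)) x * F x := by
  have h := wh_pair hg n hn hn0 c hc s hs e he F
  simp only [hF] at h
  rw [sum_add_distrib] at h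
  linarith

theorem re_even (ξ : ZMod p) :
    (n : ℝ)⁻¹ * ∑ a ∈ Icc 1 n, (ZMod.stdAddChar (ξ * vv c s e a) : ℂ).re = (ft (uni (cs c (g ^ e))) ξ).re := by
  have h := wh_even hg n hn hn0 c hc s hs e he (fun x => (ZMod.stdAddChar (ξ * x) : ℂ).re) (by
    intro x
    rw [mul_neg, ← conj_std, Complex.conj_re])
  rw [h]
  unfold ft
  rw [Complex.re_sum]
  refine sum_congr rfl fun x _ => ?_
  rw [Complex.re_ofReal_mul]

/-- the Fourier transform of the law of a half system -/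
theorem ft_wh_sq (ξ : ZMod p) :
    ‖ft (wh n (vv c s e)) ξ‖ ^ 2 ≤ ‖ft (uni (cs c (g ^ e))) ξ‖ ^ 2 +
      (1 + ‖ft (uni (cs c (g ^ e))) (2 * ξ)‖) / 2 := by
  have hn1 : (0 : ℝ) < n := by exact_mod_cast hn0
  set z : ℕ → ℂ := fun a => ZMod.stdAddChar (ξ * vv c s e a) with hz
  have hre : (ft (wh n (vv c s e)) ξ).re = (n : ℝ)⁻¹ * ∑ a ∈ Icc 1 n, (z a).re := by
    rw [ft_wh, ← Complex.ofReal_natCast, ← Complex.ofReal_inv, Complex.re_ofReal_mul, Complex.re_sum]
  have him : (ft (wh n (vv c s e)) ξ).im = (n : ℝ)⁻¹ * ∑ a ∈ Icc 1 n, (z a).im := by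
    rw [ft_wh, ← Complex.ofReal_natCast, ← Complex.ofReal_inv, Complex.im_ofReal_mul, Complex.im_sum]
  have h1 : (ft (wh n (vv c s e)) ξ).re ^ 2 ≤ ‖ft (uni (cs c (g ^ e))) ξ‖ ^ 2 := by
    rw [hre, re_even hg n hn hn0 c hc s hs e he ξ]
    exact sq_le_sq' (by linarith [neg_abs_le (ft (uni (cs c (g ^ e))) ξ).re, Complex.abs_re_le_norm (ft (uni (cs c (g ^ e))) ξ)])
      (Complex.re_le_norm _)
  have h2 : (ft (wh n (vv c s e)) ξ).im ^ 2 ≤ (1 + ‖ft (uni (cs c (g ^ e))) (2 * ξ)‖) / 2 := by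
    rw [him, mul_pow]
    have h3 : (∑ a ∈ Icc 1 n, (z a).im) ^ 2 ≤ n * ∑ a ∈ Icc 1 n, (z a).im ^ 2 := by
      have := sq_sum_le_card_mul_sum_sq (s := Icc 1 n) (f := fun a => (z a).im)
      rwa [Nat.card_Icc, Nat.add_sub_cancel] at this
    have h4 : ∀ a, (z a).im ^ 2 = (1 - (ZMod.stdAddChar (2 * ξ * vv c s e a) : ℂ).re) / 2 := by
      intro a
      have e1 : (ZMod.stdAddChar (2 * ξ * vv c s e a) : ℂ) = z a * z a := by
        rw [hz, ← AddChar.map_add_eq_mul]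
        congr 1
        ring
      have e2 : (z a).re ^ 2 + (z a).im ^ 2 = 1 := by
        have h5 : ‖z a‖ ^ 2 = 1 := by rw [hz]; simp only; rw [norm_std]; norm_num
        rw [Complex.sq_norm, Complex.normSq_apply] at h5
        linarith
      rw [e1, Complex.mul_re]
      linarith
    have h5 : (n : ℝ)⁻¹ ^ 2 * (∑ a ∈ Icc 1 n, (z a).im) ^ 2 ≤
        (n : ℝ)⁻¹ * ∑ a ∈ Icc 1 n, (1 - (ZMod.stdAddChar (2 * ξ * vv c s e a) : ℂ).re) / 2 := by
      calc (n : ℝ)⁻¹ ^ 2 * (∑ a ∈ Icc 1 n, (z a).im) ^ 2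
          ≤ (n : ℝ)⁻¹ ^ 2 * (n * ∑ a ∈ Icc 1 n, (z a).im ^ 2) :=
            mul_le_mul_of_nonneg_left h3 (by positivity)
        _ = (n : ℝ)⁻¹ * ∑ a ∈ Icc 1 n, (z a).im ^ 2 := by field_simp
        _ = _ := by rw [sum_congr rfl fun a _ => h4 a]
    refine h5.trans ?_
    rw [← sum_div, sum_sub_distrib, sum_const, Nat.card_Icc, Nat.add_sub_cancel, nsmul_eq_mul, mul_one,
      mul_div_assoc', mul_sub, inv_mul_cancel₀ hn1.ne', re_even hg n hn hn0 c hc s hs e he (2 * ξ)]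
    have := neg_abs_le (ft (uni (cs c (g ^ e))) (2 * ξ)).re
    have := Complex.abs_re_le_norm (ft (uni (cs c (g ^ e))) (2 * ξ))
    linarith
  rw [Complex.sq_norm, Complex.normSq_apply]
  nlinarith

end

end Pool.Agent.H555.Few
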