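import Pool.Agent.H555.Few.FlatT
import Pool.Graph.R_pool_sql_team_seeded_35f281b4.K7.H67.BG.Geo

set_option autoImplicit false

/-! # Iterated convolutions, and the flattening of small subgroups -/

open Finset

namespace Pool.Agent.H555.Few

open Pool.Agent.Y881.SP Pool.Agent.K7.H67.BG

variable {p : ℕ} [Fact p.Prime]

/-- the `q`-fold convolution -/
noncomputable def it (w : ZMod p → ℝ) : ℕ → ZMod p → ℝ
  | 0 => fun x => if x = 0 then 1 else 0
  | q + 1 => fun x => ∑ y, w y * it w q (x - y)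

theorem it_zero (w : ZMod p → ℝ) (x : ZMod p) : it w 0 x = if x = 0 then 1 else 0 := rfl

theorem it_succ (w : ZMod p → ℝ) (q : ℕ) (x : ZMod p) :
    it w (q + 1) x = ∑ y, w y * it w q (x - y) := rfl

theorem it_nonneg (w : ZMod p → ℝ) (h0 : ∀ x, 0 ≤ w x) (q : ℕ) : ∀ x, 0 ≤ it w q x := by
  induction q with
  | zero => intro x; rw [it_zero]; split_ifs <;> norm_num
  | succ q ih => intro x; rw [it_succ]; exact sum_nonneg fun y _ => mul_nonneg (h0 y) (ih _)

theorem it_sum (w : ZMod p → ℝ) (h1 : ∑ x, w x = 1) (q : ℕ) : ∑ x, it w q x = 1 := by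
  induction q with
  | zero => simp [it_zero]
  | succ q ih =>
    simp only [it_succ]
    rw [sum_comm]
    have : ∀ y : ZMod p, ∑ x, w y * it w q (x - y) = w y := by
      intro y
      rw [← mul_sum]
      have := Equiv.sum_comp (Equiv.subRight y) (fun x => it w q x)
      simp only [Equiv.subRight_apply] at this
      rw [this, ih, mul_one]
    rw [sum_congr rfl fun y _ => this y, h1]

theorem it_one (w : ZMod p → ℝ) (x : ZMod p) : it w 1 x = w x := by
  rw [it_succ, sum_eq_single x]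
  · rw [sub_self, it_zero, if_pos rfl, mul_one]
  · intro y _ hy
    rw [it_zero, if_neg (sub_ne_zero.2 hy.symm), mul_zero]
  · intro h; exact absurd (mem_univ _) h

theorem it_add (w : ZMod p → ℝ) (a b : ℕ) : ∀ x, it w (a + b) x = ∑ y, it w a y * it w b (x - y) := by
  induction a with
  | zero =>
    intro x
    rw [zero_add, sum_eq_single 0]
    · rw [it_zero, if_pos rfl, one_mul, sub_zero]
    · intro y _ hy
      rw [it_zero, if_neg hy, zero_mul]
    · intro h; exact absurd (mem_univ _) h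
  | succ a ih =>
    intro x
    rw [Nat.succ_add, it_succ]
    have h1 : ∀ y : ZMod p, w y * it w (a + b) (x - y) = ∑ z, w y * it w a (z - y) * it w b (x - z) := by
      intro y
      rw [ih, mul_sum, ← Equiv.sum_comp (Equiv.subRight y)
        (fun z => w y * (it w a z * it w b (x - y - z)))]
      refine sum_congr rfl fun z _ => ?_
      rw [Equiv.subRight_apply, show x - y - (z - y) = x - z by ring]
      ring
    rw [sum_congr rfl fun y _ => h1 y, sum_comm]
    refine sum_congr rfl fun z _ => ?_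
    rw [it_succ, sum_mul]

theorem it_mono (w w' : ZMod p → ℝ) (C : ℝ) (hC : 0 ≤ C) (h0 : ∀ x, 0 ≤ w x) (h0' : ∀ x, 0 ≤ w' x)
    (h : ∀ x, w x ≤ C * w' x) (q : ℕ) : ∀ x, it w q x ≤ C ^ q * it w' q x := by
  induction q with
  | zero => intro x; rw [it_zero, it_zero, pow_zero, one_mul]
  | succ q ih =>
    intro x
    rw [it_succ, it_succ, mul_sum]
    refine sum_le_sum fun y _ => ?_
    calc w y * it w q (x - y) ≤ (C * w' y) * (C ^ q * it w' q (x - y)) :=
          mul_le_mul (h y) (ih _) (it_nonneg w h0 q _) (mul_nonneg hC (h0' y))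
      _ = _ := by ring

theorem it_sup (w : ZMod p → ℝ) (h0 : ∀ x, 0 ≤ w x) (h1 : ∑ x, w x = 1) (a b : ℕ) (S : ℝ)
    (hS : ∀ x, it w b x ≤ S) (x : ZMod p) : it w (a + b) x ≤ S := by
  rw [it_add]
  calc ∑ y, it w a y * it w b (x - y) ≤ ∑ y, it w a y * S :=
        sum_le_sum fun y _ => mul_le_mul_of_nonneg_left (hS _) (it_nonneg w h0 a y)
    _ = S := by rw [← sum_mul, it_sum w h1, one_mul]

theorem ft_it (w : ZMod p → ℝ) (q : ℕ) (ξ : ZMod p) : ft (it w q) ξ = ft w ξ ^ q := by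
  induction q with
  | zero =>
    unfold ft
    rw [sum_eq_single 0]
    · rw [it_zero, if_pos rfl]; simp
    · intro y _ hy
      rw [it_zero, if_neg hy]; simp
    · intro h; exact absurd (mem_univ _) h
  | succ q ih =>
    rw [pow_succ, ← ih, mul_comm]
    unfold ft
    rw [sum_mul_sum]
    have h1 : ∀ x : ZMod p, ((it w (q + 1) x : ℝ) : ℂ) * ZMod.stdAddChar (ξ * x) =
        ∑ y, (w y : ℂ) * it w q (x - y) * ZMod.stdAddChar (ξ * x) := by
      intro x
      rw [it_succ]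
      push_cast
      rw [sum_mul]
    rw [sum_congr rfl fun x _ => h1 x, sum_comm]
    refine sum_congr rfl fun y _ => ?_
    rw [← Equiv.sum_comp (Equiv.addRight y)]
    refine sum_congr rfl fun x _ => ?_
    simp only [Equiv.coe_addRight, add_sub_cancel_right]
    rw [mul_add, AddChar.map_add_eq_mul]
    ring

/-- inversion -/
theorem le_ft (ρ : ZMod p → ℝ) (b : ZMod p) : (p : ℝ) * ρ b ≤ ∑ ξ, ‖ft ρ ξ‖ := by
  have h1 : ∑ ξ, ft ρ ξ * ZMod.stdAddChar (-(ξ * b)) = (p : ℂ) * ρ b := by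
    unfold ft
    simp only [sum_mul]
    rw [sum_comm, sum_eq_single b]
    · have : ∀ ξ : ZMod p, (ρ b : ℂ) * ZMod.stdAddChar (ξ * b) * ZMod.stdAddChar (-(ξ * b)) = ρ b := by
        intro ξ
        rw [mul_assoc, ← AddChar.map_add_eq_mul, add_neg_cancel, AddChar.map_zero_eq_one, mul_one]
      rw [sum_congr rfl fun ξ _ => this ξ, sum_const, card_univ, ZMod.card, nsmul_eq_mul]
    · intro x _ hx
      have : ∀ ξ : ZMod p, (ρ x : ℂ) * ZMod.stdAddChar (ξ * x) * ZMod.stdAddChar (-(ξ * b)) =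
          ρ x * ZMod.stdAddChar (ξ * (x - b)) := by
        intro ξ
        rw [mul_assoc, ← AddChar.map_add_eq_mul]
        congr 2
        ring
      rw [sum_congr rfl fun ξ _ => this ξ, ← mul_sum,
        AddChar.sum_mulShift _ (ZMod.isPrimitive_stdAddChar p), if_neg (sub_ne_zero.2 hx)]
      simp
    · intro h; exact absurd (mem_univ _) h
  have h2 : (p : ℝ) * ρ b ≤ ‖(p : ℂ) * ρ b‖ := by
    have : ((p : ℂ) * ρ b) = (((p : ℝ) * ρ b : ℝ) : ℂ) := by push_cast; rfl
    rw [this, Complex.norm_real]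
    exact le_abs_self _
  refine h2.trans ?_
  rw [← h1]
  refine (norm_sum_le _ _).trans (sum_le_sum fun ξ _ => ?_)
  rw [norm_mul, norm_std, mul_one]

/-! ### cosets of a cyclic group -/

/-- the coset of `c` -/
noncomputable def cs (c : ZMod p) (h : (ZMod p)ˣ) : Finset (ZMod p) := by
  classical
  exact (Icc 1 (orderOf h)).image fun m => c * gv h m

theorem mem_cs (c : ZMod p) (h : (ZMod p)ˣ) (x : ZMod p) :
    x ∈ cs c h ↔ ∃ k : ℕ, x = c * gv h k := by
  classical
  unfold cs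
  rw [mem_image]
  constructor
  · rintro ⟨m, -, rfl⟩
    exact ⟨m, rfl⟩
  · rintro ⟨k, rfl⟩
    have hT : 0 < orderOf h := orderOf_pos h
    by_cases hk : k % orderOf h = 0
    · refine ⟨orderOf h, by rw [mem_Icc]; omega, ?_⟩
      unfold gv
      rw [pow_orderOf_eq_one, ← pow_mod_orderOf h k, hk, pow_zero]
    · refine ⟨k % orderOf h, ?_, ?_⟩
      · rw [mem_Icc]
        have := Nat.mod_lt k hT
        omega
      · unfold gv
        rw [pow_mod_orderOf]

theorem card_cs (c : ZMod p) (hc : c ≠ 0) (h : (ZMod p)ˣ) : (cs c h).card = orderOf h := by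
  classical
  unfold cs
  rw [card_image_of_injOn, Nat.card_Icc, Nat.add_sub_cancel]
  intro a ha b hb hab
  exact pw_inj h (orderOf h) le_rfl ha hb (mul_left_cancel₀ hc hab)

theorem mul_mem_cs (c : ZMod p) (h : (ZMod p)ˣ) (x : ZMod p) : (h : ZMod p) * x ∈ cs c h ↔ x ∈ cs c h := by
  rw [mem_cs, mem_cs]
  constructor
  · rintro ⟨k, hk⟩
    refine ⟨k + (orderOf h - 1), ?_⟩
    have hT : 0 < orderOf h := orderOf_pos h
    have h1 : h * h ^ (k + (orderOf h - 1)) = h ^ k := by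
      rw [← pow_succ', show k + (orderOf h - 1) + 1 = k + orderOf h by omega, pow_add,
        pow_orderOf_eq_one, mul_one]
    have h2 : (h : ZMod p) * (c * gv h (k + (orderOf h - 1))) = c * gv h k := by
      unfold gv
      rw [← h1]
      push_cast
      ring
    exact mul_left_cancel₀ (Units.ne_zero h) (hk.trans h2.symm)
  · rintro ⟨k, rfl⟩
    refine ⟨k + 1, ?_⟩
    unfold gv
    rw [pow_succ]
    push_cast
    ring

theorem uni_inv (c : ZMod p) (h : (ZMod p)ˣ) (x : ZMod p) :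
    uni (cs c h) ((h : ZMod p) * x) = uni (cs c h) x := by
  unfold uni
  by_cases hx : x ∈ cs c h
  · rw [if_pos hx, if_pos ((mul_mem_cs c h x).2 hx)]
  · rw [if_neg hx, if_neg (fun h' => hx ((mul_mem_cs c h x).1 h'))]

theorem it_inv (w : ZMod p → ℝ) (h : (ZMod p)ˣ) (hw : ∀ x, w ((h : ZMod p) * x) = w x) (q : ℕ) :
    ∀ x, it w q ((h : ZMod p) * x) = it w q x := by
  induction q with
  | zero =>
    intro x
    rw [it_zero, it_zero]
    simp
  | succ q ih =>
    intro x
    rw [it_succ, it_succ, ← Equiv.sum_comp (Equiv.mulLeft₀ (h : ZMod p) (Units.ne_zero h))]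
    refine sum_congr rfl fun y _ => ?_
    rw [Equiv.mulLeft₀_apply, hw, ← mul_sub, ih]

theorem inv_pow (ρ : ZMod p → ℝ) (h : (ZMod p)ˣ) (hw : ∀ x, ρ ((h : ZMod p) * x) = ρ x) (m : ℕ) (x : ZMod p) :
    ρ (gv h m * x) = ρ x := by
  induction m with
  | zero => simp [gv]
  | succ m ih =>
    have : gv h (m + 1) * x = (h : ZMod p) * (gv h m * x) := by
      unfold gv
      rw [pow_succ]
      push_cast
      ring
    rw [this, hw, ih]

theorem conv_inv (ρ : ZMod p → ℝ) (h : (ZMod p)ˣ) (hw : ∀ x, ρ ((h : ZMod p) * x) = ρ x) (m : ℕ) (z : ZMod p) :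
    conv ρ (gv h m) z = conv ρ 1 z := by
  unfold conv
  have hne : gv h m ≠ 0 := Units.ne_zero _
  rw [← Equiv.sum_comp (Equiv.mulLeft₀ (gv h m) hne) (fun y => ρ (z - 1 * y) * ρ y)]
  refine sum_congr rfl fun y _ => ?_
  rw [Equiv.mulLeft₀_apply, one_mul, inv_pow ρ h hw]

theorem conv_one (w : ZMod p → ℝ) (a : ℕ) (z : ZMod p) : conv (it w a) 1 z = it w (a + a) z := by
  rw [it_add]
  unfold conv
  refine sum_congr rfl fun y _ => ?_
  rw [one_mul, mul_comm]

theorem cs_nonempty (c : ZMod p) (h : (ZMod p)ˣ) : (cs c h).Nonempty :=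
  ⟨c * gv h 0, (mem_cs c h _).2 ⟨0, rfl⟩⟩

/-- Flattening of the uniform law of a coset of a small subgroup. -/
theorem flatG : ∃ J : ℕ, ∃ T₀ : ℝ, 3 ≤ T₀ ∧ ∀ (p : ℕ) [Fact p.Prime] (h : (ZMod p)ˣ) (c : ZMod p),
    c ≠ 0 → T₀ ≤ orderOf h → (orderOf h : ℝ) ^ 5 ≤ p →
      ∀ b : ZMod p, it (uni (cs c h)) (2 ^ J) b ≤ ((orderOf h : ℝ) ^ 3)⁻¹ := by
  obtain ⟨κ, hκ, T₀, hT₀, hflat⟩ := flatT
  obtain ⟨J, hJ⟩ := exists_nat_gt (2 / κ)
  refine ⟨J + 1, T₀, hT₀, fun p _ h c hc hT hTp b => ?_⟩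
  obtain ⟨q, hq⟩ : ∃ q : ℝ, q = orderOf h := ⟨_, rfl⟩
  rw [← hq] at hT hTp ⊢
  have hp0 : (0 : ℝ) < p := by exact_mod_cast (Fact.out : p.Prime).pos
  have hq3 : 3 ≤ q := hT₀.trans hT
  have hq0 : 0 < q := by linarith
  have hq1 : 1 < q := by linarith
  set w : ZMod p → ℝ := uni (cs c h) with hw
  have hw0 : ∀ x, 0 ≤ w x := uni_nonneg _
  have hw1 : ∑ x, w x = 1 := uni_sum _ (cs_nonempty c h)
  have hwi : ∀ x, w ((h : ZMod p) * x) = w x := uni_inv c h
  set N : ℕ → ℝ := fun j => ∑ x, it w (2 ^ j) x ^ 2 with hN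
  have hN0 : N 0 = q⁻¹ := by
    simp only [hN, pow_zero]
    rw [sum_congr rfl fun x _ => by rw [it_one], hw, uni_sq _ (cs_nonempty c h), card_cs c hc, hq]
  have hconv : ∀ j, ∀ m : ℕ, Pool.Agent.Y881.SP.J (it w (2 ^ j)) (gv h m) = p * N (j + 1) := by
    intro j m
    rw [J_eq]
    congr 1
    refine sum_congr rfl fun z _ => ?_
    have e : 2 ^ (j + 1) = 2 ^ j + 2 ^ j := by ring
    rw [conv_inv _ h (it_inv w h hwi _), conv_one, e]
  have hmono : ∀ j, N (j + 1) ≤ N j := by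
    intro j
    have h2 := J_le (it w (2 ^ j)) (it_nonneg w hw0 _) (it_sum w hw1 _) (gv h 0)
    rw [hconv] at h2
    exact le_of_mul_le_mul_left h2 hp0
  have hqκ : 0 < q ^ κ := Real.rpow_pos_of_pos hq0 _
  have hqκ1 : 1 ≤ q ^ κ := Real.one_le_rpow hq1.le hκ.le
  have hclaim : ∀ j, N j ≤ (q ^ 3)⁻¹ ∨ N j ≤ q⁻¹ * ((q ^ κ) ^ j)⁻¹ := by
    intro j
    induction j with
    | zero => right; rw [hN0, pow_zero, inv_one, mul_one]
    | succ j ih =>
      by_cases hlo : N j ≤ (q ^ 3)⁻¹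
      · left; exact (hmono j).trans hlo
      have hj : N j ≤ q⁻¹ * ((q ^ κ) ^ j)⁻¹ := by tauto
      right
      have hjq : N j ≤ q⁻¹ := by
        refine hj.trans (mul_le_of_le_one_right (by positivity) ?_)
        exact inv_le_one_of_one_le₀ (one_le_pow₀ hqκ1)
      have hs := hflat p q hT hTp (it w (2 ^ j)) (it_nonneg w hw0 _) (it_sum w hw1 _)
        (not_le.1 hlo).le hjq
      by_contra hcon
      have h2 : N j * (q ^ κ)⁻¹ < N (j + 1) := by
        refine lt_of_le_of_lt ?_ (not_le.1 hcon)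
        rw [pow_succ, mul_inv, ← mul_assoc]
        exact mul_le_mul_of_nonneg_right hj (by positivity)
      have h3 : pw h (orderOf h) ⊆ sym (it w (2 ^ j)) (q ^ κ) := by
        intro μ hμ
        unfold pw at hμ
        rw [mem_image] at hμ
        obtain ⟨m, -, rfl⟩ := hμ
        unfold sym
        rw [mem_filter]
        refine ⟨mem_univ _, Units.ne_zero _, ?_⟩
        rw [hconv]
        have h4 : N j ≤ q ^ κ * N (j + 1) := by
          rw [← div_eq_mul_inv, div_lt_iff₀ hqκ] at h2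
          linarith
        have h5 := mul_le_mul_of_nonneg_left h4 hp0.le
        calc (p : ℝ) * ∑ x, it w (2 ^ j) x ^ 2 = p * N j := rfl
          _ ≤ p * (q ^ κ * N (j + 1)) := h5
          _ = _ := by ring
      have h4 := card_le_card h3
      rw [pw_card h (orderOf h) le_rfl] at h4
      have h5 : q ≤ ((sym (it w (2 ^ j)) (q ^ κ)).card : ℝ) := by
        have h6 : ((orderOf h : ℕ) : ℝ) ≤ ((sym (it w (2 ^ j)) (q ^ κ)).card : ℝ) := by
          exact_mod_cast h4
        rwa [← hq] at h6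
      linarith
  have hfin : N J ≤ (q ^ 3)⁻¹ := by
    rcases hclaim J with h2 | h2
    · exact h2
    · refine h2.trans ?_
      rw [← mul_inv]
      refine inv_anti₀ (by positivity) ?_
      have h3 : q ^ 2 ≤ (q ^ κ) ^ J := by
        rw [← Real.rpow_natCast (q ^ κ) J, ← Real.rpow_mul hq0.le, ← Real.rpow_natCast q 2]
        refine Real.rpow_le_rpow_of_exponent_le hq1.le ?_
        rw [div_lt_iff₀ hκ] at hJ
        push_cast
        linarith
      calc q ^ 3 = q * q ^ 2 := by ring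
        _ ≤ _ := mul_le_mul_of_nonneg_left h3 hq0.le
  refine le_trans ?_ hfin
  rw [pow_succ, mul_two, it_add]
  have h2 : ∀ y, it w (2 ^ J) y * it w (2 ^ J) (b - y) ≤
      (it w (2 ^ J) y ^ 2 + it w (2 ^ J) (b - y) ^ 2) / 2 := by
    intro y
    nlinarith [sq_nonneg (it w (2 ^ J) y - it w (2 ^ J) (b - y))]
  refine (sum_le_sum fun y _ => h2 y).trans (le_of_eq ?_)
  rw [← sum_div, sum_add_distrib]
  have h3 : ∑ y, it w (2 ^ J) (b - y) ^ 2 = N J := by
    have := Equiv.sum_comp (Equiv.subLeft b) (fun x => it w (2 ^ J) x ^ 2)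
    simp only [Equiv.subLeft_apply] at this
    exact this
  rw [h3]
  simp only [hN]
  ring

end Pool.Agent.H555.Few
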