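import Pool.Agent.H555.Few.Half

set_option autoImplicit false

/-! # The probability that a sum of few random elements has a given value -/

open Finset

namespace Pool.Agent.H555.Few

open Pool.Agent.Y881.SP Pool.Agent.K7.H67.BG Pool.Agent.H555.Sieg

theorem big (γ : ℝ) (hγ : 0 < γ) (ε : ℝ) (hε : 0 < ε) : ∃ q₀ P : ℕ, ∀ (p : ℕ) [Fact p.Prime], P ≤ p →
    ∀ w u : ZMod p → ℝ, (∀ x, 0 ≤ w x) → ∑ x, w x = 1 → (∀ x, 0 ≤ u x) → ∑ x, u x = 1 →
      (∀ x, w x ≤ 2 * u x) → (∀ ξ, ‖ft w ξ‖ ^ 2 ≤ ‖ft u ξ‖ ^ 2 + (1 + ‖ft u (2 * ξ)‖) / 2) →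
      (∀ ξ, ξ ≠ 0 → ‖ft u ξ‖ ≤ (p : ℝ) ^ (-γ)) → ∀ b, it w q₀ b ≤ (1 + ε) / p := by
  obtain ⟨k, hk⟩ := exists_nat_gt (1 / (2 * γ))
  have hk2 : 1 ≤ 2 * k * γ := by
    rw [div_lt_iff₀ (by positivity)] at hk
    linarith
  obtain ⟨r, hr⟩ := exists_pow_lt_of_lt_one (show (0 : ℝ) < ε / (2 * 4 ^ k) by positivity)
    (show (3 / 4 : ℝ) < 1 by norm_num)
  obtain ⟨P, hP2, hP⟩ := Pool.Agent.H435R3.Paley.exists_large 10 γ hγ
  refine ⟨2 * k + r, max P 3, fun p _ hp w u hw0 hw1 hu0 hu1 hwu hft hu b => ?_⟩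
  have hpp := (Fact.out : p.Prime)
  have hp0 : (0 : ℝ) < p := by exact_mod_cast hpp.pos
  have hp1 : (1 : ℝ) ≤ p := by exact_mod_cast hpp.one_lt.le
  have hp3 : 3 ≤ p := (le_max_right _ _).trans hp
  have h10 : (p : ℝ) ^ (-γ) ≤ 1 / 10 := by
    rw [Real.rpow_neg hp0.le, one_div]
    exact inv_anti₀ (by norm_num) (hP p ((le_max_left _ _).trans hp))
  have h20 : (2 : ZMod p) ≠ 0 := by
    have : ((2 : ℕ) : ZMod p) ≠ 0 := by
      rw [Ne, ZMod.natCast_eq_zero_iff]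
      intro h
      have := Nat.le_of_dvd (by norm_num) h
      omega
    exact_mod_cast this
  have hθ : ∀ ξ : ZMod p, ξ ≠ 0 → ‖ft w ξ‖ ≤ 3 / 4 := by
    intro ξ hξ
    have h1 := hft ξ
    have h2 := (hu ξ hξ).trans h10
    have h3 := (hu (2 * ξ) (mul_ne_zero h20 hξ)).trans h10
    have h4 : ‖ft u ξ‖ ^ 2 ≤ (1 / 10) ^ 2 := pow_le_pow_left₀ (norm_nonneg _) h2 2
    have h5 : ‖ft w ξ‖ ^ 2 ≤ (3 / 4) ^ 2 := by norm_num at h4 ⊢; linarith
    exact (pow_le_pow_iff_left₀ (norm_nonneg _) (by norm_num) two_ne_zero).1 h5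
  have hmom : ∑ ξ, ‖ft w ξ‖ ^ (2 * k) ≤ 2 * 4 ^ k := by
    have e1 : ∀ v : ZMod p → ℝ, ∑ ξ, ‖ft v ξ‖ ^ (2 * k) = p * ∑ x, it v k x ^ 2 := by
      intro v
      rw [← parseval]
      refine sum_congr rfl fun ξ _ => ?_
      rw [ft_it, norm_pow, ← pow_mul, mul_comm]
    have h1 : ∑ ξ, ‖ft w ξ‖ ^ (2 * k) ≤ 4 ^ k * ∑ ξ, ‖ft u ξ‖ ^ (2 * k) := by
      rw [e1 w, e1 u, mul_left_comm]
      refine mul_le_mul_of_nonneg_left ?_ hp0.le
      rw [mul_sum]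
      refine sum_le_sum fun x _ => ?_
      have h2 := it_mono w u 2 (by norm_num) hw0 hu0 hwu k x
      calc it w k x ^ 2 ≤ (2 ^ k * it u k x) ^ 2 := pow_le_pow_left₀ (it_nonneg w hw0 k x) h2 2
        _ = _ := by rw [mul_pow, ← pow_mul, mul_comm k 2, pow_mul]; norm_num
    have h2 : ∑ ξ, ‖ft u ξ‖ ^ (2 * k) ≤ 2 := by
      rw [← add_sum_erase univ _ (mem_univ (0 : ZMod p)), ft_zero u hu1, norm_one, one_pow]
      have h3 : ∑ ξ ∈ univ.erase (0 : ZMod p), ‖ft u ξ‖ ^ (2 * k) ≤ 1 := by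
        calc ∑ ξ ∈ univ.erase (0 : ZMod p), ‖ft u ξ‖ ^ (2 * k)
            ≤ ∑ ξ ∈ univ.erase (0 : ZMod p), ((p : ℝ) ^ (-γ)) ^ (2 * k) :=
              sum_le_sum fun ξ hξ => pow_le_pow_left₀ (norm_nonneg _) (hu ξ (mem_erase.1 hξ).1) _
          _ ≤ p * ((p : ℝ) ^ (-γ)) ^ (2 * k) := by
              rw [sum_const, nsmul_eq_mul]
              refine mul_le_mul_of_nonneg_right ?_ (by positivity)
              have : (univ.erase (0 : ZMod p)).card ≤ p := by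
                refine (card_le_card (erase_subset _ _)).trans ?_
                rw [card_univ, ZMod.card]
              exact_mod_cast this
          _ = (p : ℝ) ^ (1 - 2 * k * γ) := by
              rw [← Real.rpow_natCast, ← Real.rpow_mul hp0.le, ← Real.rpow_one_add' hp0.le]
              · congr 1
                push_cast
                ring
              · push_cast
                have hk0 : 1 / (2 * γ) < k := hk
                rcases hk2.eq_or_lt with h | h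
                · rw [div_lt_iff₀ (by positivity)] at hk0
                  linarith
                · intro h'
                  linarith
          _ ≤ 1 := Real.rpow_le_one_of_one_le_of_nonpos hp1 (by linarith)
      linarith
    calc _ ≤ 4 ^ k * ∑ ξ, ‖ft u ξ‖ ^ (2 * k) := h1
      _ ≤ 4 ^ k * 2 := mul_le_mul_of_nonneg_left h2 (by positivity)
      _ = _ := by ring
  rw [le_div_iff₀ hp0, mul_comm]
  refine (le_ft (it w (2 * k + r)) b).trans ?_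
  rw [← add_sum_erase univ _ (mem_univ (0 : ZMod p)), ft_it, ft_zero w hw1, one_pow, norm_one]
  refine add_le_add le_rfl ?_
  calc ∑ ξ ∈ univ.erase (0 : ZMod p), ‖ft (it w (2 * k + r)) ξ‖
      ≤ ∑ ξ ∈ univ.erase (0 : ZMod p), (3 / 4) ^ r * ‖ft w ξ‖ ^ (2 * k) := by
        refine sum_le_sum fun ξ hξ => ?_
        rw [ft_it, norm_pow, pow_add, mul_comm]
        refine mul_le_mul_of_nonneg_right ?_ (by positivity)
        exact pow_le_pow_left₀ (norm_nonneg _) (hθ ξ (mem_erase.1 hξ).1) _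
    _ ≤ (3 / 4) ^ r * ∑ ξ, ‖ft w ξ‖ ^ (2 * k) := by
        rw [← mul_sum]
        refine mul_le_mul_of_nonneg_left ?_ (by positivity)
        exact sum_le_sum_of_subset_of_nonneg (erase_subset _ _) fun _ _ _ => by positivity
    _ ≤ (3 / 4) ^ r * (2 * 4 ^ k) := mul_le_mul_of_nonneg_left hmom (by positivity)
    _ ≤ ε := by
        rw [lt_div_iff₀ (by positivity)] at hr
        exact hr.le

/-- One index: sums of boundedly many terms. -/
theorem idx (ε : ℝ) (hε : 0 < ε) : ∃ q : ℕ, ∃ C : ℝ, 0 ≤ C ∧ ∃ T₀ P : ℕ, ∀ (p : ℕ) [Fact p.Prime], P ≤ p →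
    ∀ (g : (ZMod p)ˣ), orderOf g = p - 1 → ∀ n : ℕ, p = 2 * n + 1 → ∀ c : ZMod p, c ≠ 0 →
    ∀ s : ℕ → ZMod p, (∀ a, s a = 1 ∨ s a = -1) → ∀ e : ℕ, Odd e → T₀ ≤ orderOf (g ^ e) →
    ∀ b : ZMod p, it (wh n (vv c s e)) q b ≤ (1 + ε) / p + C * ((orderOf (g ^ e) : ℝ) ^ 3)⁻¹ := by
  obtain ⟨J, T₁, hT₁, hflat⟩ := flatG
  obtain ⟨γ, hγ, P₁, hgeo⟩ := geo (1 / 5) (by norm_num)
  obtain ⟨q₀, P₂, hbig⟩ := big γ hγ ε hε
  refine ⟨q₀ + 2 ^ J, 2 ^ (2 ^ J), by positivity, ⌈T₁⌉₊, max (max P₁ P₂) 3,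
    fun p _ hp g hg n hn c hc s hs e he hT b => ?_⟩
  have hpp := (Fact.out : p.Prime)
  have hp0 : (0 : ℝ) < p := by exact_mod_cast hpp.pos
  have hp3 : 3 ≤ p := (le_max_right _ _).trans hp
  have hn0 : 0 < n := by omega
  have hT0 : (0 : ℝ) < orderOf (g ^ e) := by exact_mod_cast orderOf_pos _
  set w := wh n (vv c s e) with hw
  have hw0 : ∀ x, 0 ≤ w x := wh_nonneg n _
  have hw1 : ∑ x, w x = 1 := wh_sum n hn0 _
  set u := uni (cs c (g ^ e)) with hu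
  have hu0 : ∀ x, 0 ≤ u x := uni_nonneg _
  have hu1 : ∑ x, u x = 1 := uni_sum _ (cs_nonempty _ _)
  have hwu : ∀ x, w x ≤ 2 * u x := wh_le hg n hn hn0 c hc s hs e he
  by_cases hTp : (orderOf (g ^ e) : ℝ) ^ 5 ≤ p
  · have h1 := hflat p (g ^ e) c hc (Nat.ceil_le.1 hT) hTp
    have h2 : it w (q₀ + 2 ^ J) b ≤ 2 ^ (2 ^ J) * ((orderOf (g ^ e) : ℝ) ^ 3)⁻¹ := by
      refine it_sup w hw0 hw1 q₀ (2 ^ J) _ (fun x => ?_) b
      refine (it_mono w u 2 (by norm_num) hw0 hu0 hwu (2 ^ J) x).trans ?_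
      exact mul_le_mul_of_nonneg_left (h1 x) (by positivity)
    have h3 : 0 ≤ (1 + ε) / p := by positivity
    linarith
  · have h1 : ∀ ξ, ξ ≠ 0 → ‖ft u ξ‖ ≤ (p : ℝ) ^ (-γ) := by
      intro ξ hξ
      have h2 := hgeo p (((le_max_left _ _).trans (le_max_left _ _)).trans hp) (g ^ e) (orderOf (g ^ e)) (by
        have h3 := (not_le.1 hTp).le
        calc (p : ℝ) ^ (1 / 5 : ℝ) ≤ ((orderOf (g ^ e) : ℝ) ^ 5) ^ (1 / 5 : ℝ) :=
              Real.rpow_le_rpow hp0.le h3 (by norm_num)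
          _ = orderOf (g ^ e) := by
              rw [← Real.rpow_natCast, ← Real.rpow_mul hT0.le]
              norm_num) le_rfl (ξ * c) (mul_ne_zero hξ hc)
      rw [hu, ft_uni, card_cs c hc, norm_mul, norm_inv, Complex.norm_natCast]
      have h3 : ∑ x ∈ cs c (g ^ e), (ZMod.stdAddChar (ξ * x) : ℂ) =
          ∑ m ∈ Icc 1 (orderOf (g ^ e)), (ZMod.stdAddChar (ξ * c * gv (g ^ e) m) : ℂ) := by
        classical
        unfold cs
        rw [sum_image]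
        · exact sum_congr rfl fun m _ => by rw [mul_assoc]
        · intro a ha b hb hab
          exact pw_inj (g ^ e) _ le_rfl ha hb (mul_left_cancel₀ hc hab)
      rw [h3, inv_mul_le_iff₀ hT0]
      exact h2
    have h2 : it w (2 ^ J + q₀) b ≤ (1 + ε) / p := by
      refine it_sup w hw0 hw1 (2 ^ J) q₀ _ (fun x => ?_) b
      exact hbig p (((le_max_right _ _).trans (le_max_left _ _)).trans hp) w u hw0 hw1 hu0 hu1 hwu
        (ft_wh_sq hg n hn hn0 c hc s hs e he) h1 x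
    rw [add_comm q₀]
    have h3 : 0 ≤ (2 : ℝ) ^ (2 ^ J) * ((orderOf (g ^ e) : ℝ) ^ 3)⁻¹ := by positivity
    linarith

end Pool.Agent.H555.Few
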