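import Pool.Agent.H555.Few.Half
import Pool.Agent.H555.Sieg.Sparse

set_option autoImplicit false

/-! # Subgroups of bounded order, and the number of the elements of a random set -/

open Finset

namespace Pool.Agent.H555.Few

open Pool.Agent.Y881.SP Pool.Agent.K7.H67.BG Pool.Agent.H555.Sieg

variable {p : ℕ} [Fact p.Prime]

theorem Q_ge {g : (ZMod p)ˣ} (hg : orderOf g = p - 1) (e₀ : ℕ) (t : Unit → ZMod p) :
    ((p - 1 : ℕ) : ℝ) * ((t ()).valMinAbs : ℝ) ^ 2 ≤ orderOf (g ^ e₀) * Q (fun _ => e₀) t := by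
  classical
  have h1 := units_sum hg e₀ 1 one_ne_zero (fun x => if x = 1 then ((t ()).valMinAbs : ℝ) ^ 2 else 0)
  have h2 : ∑ x ∈ cs 1 (g ^ e₀), (if x = 1 then ((t ()).valMinAbs : ℝ) ^ 2 else 0) =
      ((t ()).valMinAbs : ℝ) ^ 2 := by
    rw [sum_ite_eq', if_pos]
    exact (mem_cs 1 _ _).2 ⟨0, by simp [gv]⟩
  rw [h2] at h1
  rw [← h1]
  refine mul_le_mul_of_nonneg_left ?_ (Nat.cast_nonneg _)
  unfold Sieg.Q
  refine sum_le_sum fun u _ => ?_
  rw [one_mul]
  split_ifs with h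
  · unfold ev
    simp only [univ_unique, PUnit.default_eq_unit, sum_singleton]
    rw [h, mul_one]
  · positivity

/-- One sum vanishes with small probability, if the order is bounded. -/
theorem single_small {g : (ZMod p)ˣ} (hg : orderOf g = p - 1) (δ : ℝ) (h0 : 0 ≤ δ) (h1 : δ ≤ 1 / 2)
    (m : ℕ) (hm : p = 2 * m + 1)
    (e₀ : ℕ) (he : Odd e₀) (c : ZMod p) (hc : c ≠ 0) (s : ℕ → ZMod p)
    (hs : ∀ a, s a = 1 ∨ s a = -1) (β₀ : ZMod p) (V : ℕ) :
    ∑ A ∈ (Finset.Icc 1 m).powerset,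
      (if β₀ + c * ∑ a ∈ A, s a * (a : ZMod p) ^ e₀ = 0 then wt δ m A else 0) ≤ (2 * V + 2) / p +
        Real.exp (-(2 * δ * ((p - 1 : ℕ) : ℝ) / p ^ 2 / orderOf (g ^ e₀) * V ^ 2)) := by
  classical
  have hp := (Fact.out : p.Prime)
  have hp0 : (0 : ℝ) < p := by exact_mod_cast hp.pos
  have hT0 : (0 : ℝ) < orderOf (g ^ e₀) := by exact_mod_cast orderOf_pos _
  obtain ⟨X, hX⟩ : ∃ X : ℝ, X = Real.exp (-(2 * δ * ((p - 1 : ℕ) : ℝ) / p ^ 2 / orderOf (g ^ e₀) * V ^ 2)) :=
    ⟨_, rfl⟩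
  have hX0 : 0 ≤ X := hX ▸ (Real.exp_pos _).le
  rw [← hX]
  have hm1 := moment (p := p) (ι := Unit) (fun _ => e₀) δ h0 h1 m hm (fun _ => he) c hc s hs
    (fun _ => β₀) 1
  have h2 : ∑ t ∈ (Finset.univ : Finset (Unit → ZMod p)).filter (fun t => t ≠ 0),
        (#((Finset.univ.powersetCard 1).filter fun Y => spt t ⊆ Y) : ℝ) *
          Real.exp (-(2 * δ / p ^ 2 * Q (fun _ => e₀) t)) ≤ (2 * V + 1) + p * X := by
    have h3 : ∀ t : Unit → ZMod p,
        (#(((Finset.univ : Finset Unit).powersetCard 1).filter fun Y => spt t ⊆ Y) : ℝ) ≤ 1 := by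
      intro t
      have : #(((Finset.univ : Finset Unit).powersetCard 1).filter fun Y => spt t ⊆ Y) ≤ 1 := by
        refine (Finset.card_filter_le _ _).trans ?_
        rw [Finset.card_powersetCard]
        simp
      exact_mod_cast this
    have hQ0 : ∀ t : Unit → ZMod p, 0 ≤ Q (fun _ => e₀) t :=
      fun t => Finset.sum_nonneg fun _ _ => by positivity
    have h5 : ∀ t : Unit → ZMod p, Real.exp (-(2 * δ / p ^ 2 * Q (fun _ => e₀) t)) ≤
        (if (t ()) ∈ box p V then (1 : ℝ) else 0) + X := by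
      intro t
      split_ifs with h
      · have : Real.exp (-(2 * δ / p ^ 2 * Q (fun _ => e₀) t)) ≤ 1 := by
          rw [Real.exp_le_one_iff]
          have := hQ0 t
          have : 0 ≤ 2 * δ / p ^ 2 * Q (fun _ => e₀) t := by positivity
          linarith
        linarith
      · rw [zero_add, hX]
        apply Real.exp_le_exp.2
        rw [neg_le_neg_iff]
        have h6 := Q_ge hg e₀ t
        have h7 : (V : ℝ) ^ 2 ≤ ((t ()).valMinAbs : ℝ) ^ 2 := by
          refine sq_le_of_natAbs ?_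
          rw [Sieg.box, Finset.mem_filter] at h
          have : ¬ (t ()).valMinAbs.natAbs ≤ V := fun h' => h ⟨Finset.mem_univ _, h'⟩
          omega
        have h8 : ((p - 1 : ℕ) : ℝ) * (V : ℝ) ^ 2 / orderOf (g ^ e₀) ≤ Q (fun _ => e₀) t := by
          rw [div_le_iff₀ hT0, mul_comm (Sieg.Q _ _)]
          exact (mul_le_mul_of_nonneg_left h7 (Nat.cast_nonneg _)).trans h6
        calc 2 * δ * ((p - 1 : ℕ) : ℝ) / p ^ 2 / orderOf (g ^ e₀) * V ^ 2
            = 2 * δ / p ^ 2 * (((p - 1 : ℕ) : ℝ) * (V : ℝ) ^ 2 / orderOf (g ^ e₀)) := by ring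
          _ ≤ _ := mul_le_mul_of_nonneg_left h8 (by positivity)
    have h6 : ∀ t : Unit → ZMod p, (#(((Finset.univ : Finset Unit).powersetCard 1).filter fun Y => spt t ⊆ Y) : ℝ) *
          Real.exp (-(2 * δ / p ^ 2 * Q (fun _ => e₀) t)) ≤ (if (t ()) ∈ box p V then (1 : ℝ) else 0) + X := by
      intro t
      refine le_trans ?_ (h5 t)
      have := mul_le_mul_of_nonneg_right (h3 t) (Real.exp_pos (-(2 * δ / p ^ 2 * Q (fun _ => e₀) t))).le
      rwa [one_mul] at this
    calc _ ≤ ∑ t : Unit → ZMod p, ((if (t ()) ∈ box p V then (1 : ℝ) else 0) + X) := by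
          refine (Finset.sum_le_sum fun t _ => h6 t).trans ?_
          refine Finset.sum_le_sum_of_subset_of_nonneg (Finset.filter_subset _ _) fun t _ _ => ?_
          split_ifs <;> positivity
      _ = ∑ x : ZMod p, ((if x ∈ box p V then (1 : ℝ) else 0) + X) :=
          Equiv.sum_comp (Equiv.funUnique Unit (ZMod p)) (fun x => (if x ∈ box p V then (1 : ℝ) else 0) + X)
      _ = #(box p V) + p * X := by
          rw [Finset.sum_add_distrib, Finset.sum_const, Finset.card_univ, ZMod.card, nsmul_eq_mul]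
          simp
      _ ≤ _ := by
          have : (#(box p V) : ℝ) ≤ 2 * V + 1 := by exact_mod_cast card_box p V
          linarith
  have h3 := (abs_le.1 (hm1.trans h2)).2
  have h4 : ∀ A : Finset ℕ, ((Zc (p := p) (ι := Unit) (fun _ => e₀) c s (fun _ => β₀) A).choose 1 : ℝ) =
      if β₀ + c * ∑ a ∈ A, s a * (a : ZMod p) ^ e₀ = 0 then 1 else 0 := by
    intro A
    rw [Nat.choose_one_right]
    unfold Zc Sieg.X
    split_ifs with h
    · rw [Finset.filter_true_of_mem (fun _ _ => h)]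
      simp
    · rw [Finset.filter_false_of_mem (fun _ _ => h)]
      simp
  have h5 : ∑ A ∈ (Finset.Icc 1 m).powerset,
      (if β₀ + c * ∑ a ∈ A, s a * (a : ZMod p) ^ e₀ = 0 then wt δ m A else 0) =
      ∑ A ∈ (Finset.Icc 1 m).powerset, wt δ m A *
        ((Zc (p := p) (ι := Unit) (fun _ => e₀) c s (fun _ => β₀) A).choose 1 : ℝ) := by
    refine Finset.sum_congr rfl fun A _ => ?_
    rw [h4]
    split_ifs <;> simp
  rw [h5]
  have h6 : (2 * V + 2) / p + X = (2 * V + 2 + p * X) / p := by field_simp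
  rw [h6, le_div_iff₀ hp0]
  rw [pow_one] at h3
  simp only [Fintype.card_unit, Nat.choose_self, Nat.cast_one] at h3
  linarith

/-- a generating function -/
theorem wt_gen (δ z : ℝ) (n : ℕ) :
    ∑ A ∈ (Finset.Icc 1 n).powerset, wt δ n A * z ^ #A = (1 - δ + δ * z) ^ n := by
  have h1 := Finset.prod_add (fun _ : ℕ => δ * z) (fun _ => (1 - δ)) (Finset.Icc 1 n)
  rw [Finset.prod_const, Nat.card_Icc, Nat.add_sub_cancel] at h1
  rw [show 1 - δ + δ * z = δ * z + (1 - δ) by ring, h1]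
  refine Finset.sum_congr rfl fun A hA => ?_
  rw [Finset.mem_powerset] at hA
  rw [Finset.prod_const, Finset.prod_const, Finset.card_sdiff_of_subset hA, Nat.card_Icc]
  unfold wt
  rw [Nat.add_sub_cancel, mul_pow]
  ring

/-- few elements -/
theorem few (δ : ℝ) (h0 : 0 ≤ δ) (h1 : δ ≤ 1 / 2) (n q : ℕ) :
    ∑ A ∈ (Finset.Icc 1 n).powerset, (if #A < q then wt δ n A else 0) ≤
      2 ^ q * Real.exp (-(δ * n / 2)) := by
  have h2 := wt_gen δ (1 / 2) n
  have h3 : (1 - δ + δ * (1 / 2)) ^ n ≤ Real.exp (-(δ * n / 2)) := by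
    have h4 : 1 - δ + δ * (1 / 2) ≤ Real.exp (-(δ / 2)) := by
      have := Real.add_one_le_exp (-(δ / 2))
      linarith
    calc (1 - δ + δ * (1 / 2)) ^ n ≤ Real.exp (-(δ / 2)) ^ n :=
          pow_le_pow_left₀ (by linarith) h4 n
      _ = _ := by rw [← Real.exp_nat_mul]; congr 1; ring
  rw [← h2] at h3
  refine le_trans ?_ (mul_le_mul_of_nonneg_left h3 (by positivity : (0 : ℝ) ≤ 2 ^ q))
  rw [Finset.mul_sum]
  refine Finset.sum_le_sum fun A _ => ?_
  have hw := wt_nonneg h0 h1 n A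
  split_ifs with h
  · have h5 : (1 : ℝ) ≤ 2 ^ q * (1 / 2) ^ #A := by
      rw [one_div, _root_.inv_pow, ← div_eq_mul_inv, le_div_iff₀ (by positivity), one_mul]
      exact pow_le_pow_right₀ (by norm_num) h.le
    calc wt δ n A = wt δ n A * 1 := (mul_one _).symm
      _ ≤ wt δ n A * (2 ^ q * (1 / 2) ^ #A) := mul_le_mul_of_nonneg_left h5 hw
      _ = _ := by ring
  · positivity

/-- many elements -/
theorem many (δ : ℝ) (h0 : 0 ≤ δ) (h1 : δ ≤ 1 / 2) (n L : ℕ) :
    ∑ A ∈ (Finset.Icc 1 n).powerset, (if L < #A then wt δ n A else 0) ≤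
      Real.exp (δ * n) / 2 ^ L := by
  have h2 := wt_gen δ 2 n
  have h3 : (1 - δ + δ * 2) ^ n ≤ Real.exp (δ * n) := by
    have h4 : 1 - δ + δ * 2 ≤ Real.exp δ := by
      have := Real.add_one_le_exp δ
      linarith
    calc (1 - δ + δ * 2) ^ n ≤ Real.exp δ ^ n := pow_le_pow_left₀ (by linarith) h4 n
      _ = _ := by rw [← Real.exp_nat_mul]; congr 1; ring
  rw [← h2] at h3
  rw [le_div_iff₀ (by positivity)]
  refine le_trans ?_ h3
  rw [Finset.sum_mul]
  refine Finset.sum_le_sum fun A _ => ?_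
  have hw := wt_nonneg h0 h1 n A
  split_ifs with h
  · exact mul_le_mul_of_nonneg_left (pow_le_pow_right₀ (by norm_num) h.le) hw
  · rw [zero_mul]
    positivity

end Pool.Agent.H555.Few
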