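import Pool.Agent.H555.Few.Large
import Pool.Agent.H555.Few.Cond
import Pool.Agent.H555.Few.Small

set_option autoImplicit false

/-! # The expected number of the vanishing sums -/

open Finset Filter

namespace Pool.Agent.H555.Few

open Pool.Agent.Y881.SP Pool.Agent.K7.H67.BG Pool.Agent.H555.Sieg

section

variable {p : ℕ} [Fact p.Prime] {ι : Type*} [Fintype ι] (e : ι → ℕ)

/-- the exponents of large order -/
theorem large_orders {g : (ZMod p)ˣ} (hg : orderOf g = p - 1) (he : Function.Injective e)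
    (hep : ∀ i, e i < p - 1) (T₀ : ℕ) (hT₀ : 1 ≤ T₀) :
    ∑ i ∈ univ.filter (fun i => T₀ < orderOf (g ^ e i)), ((orderOf (g ^ e i) : ℝ) ^ 3)⁻¹ ≤ 2 / (T₀ + 1) := by
  classical
  set S := univ.filter (fun i => T₀ < orderOf (g ^ e i)) with hS
  have hmap : ∀ i ∈ S, orderOf (g ^ e i) ∈ Ioo T₀ p := by
    intro i hi
    rw [hS, mem_filter] at hi
    rw [mem_Ioo]
    refine ⟨hi.2, ?_⟩
    have h1 : orderOf (g ^ e i) ∣ p - 1 := hg ▸ orderOf_pow_dvd (e i)
    have hp := (Fact.out : p.Prime).two_le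
    have := Nat.le_of_dvd (by omega) h1
    omega
  rw [← sum_fiberwise_of_maps_to hmap]
  refine le_trans ?_ (sum_Ioo_inv_sq_le (α := ℝ) T₀ p)
  refine sum_le_sum fun T hT => ?_
  rw [mem_Ioo] at hT
  have hT0 : (0 : ℝ) < T := by exact_mod_cast (by omega : 0 < T)
  have h1 : ∑ i ∈ S with orderOf (g ^ e i) = T, ((orderOf (g ^ e i) : ℝ) ^ 3)⁻¹ =
      #{i ∈ S | orderOf (g ^ e i) = T} * ((T : ℝ) ^ 3)⁻¹ := by
    rw [← nsmul_eq_mul, ← sum_const]
    refine sum_congr rfl fun i hi => ?_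
    rw [(mem_filter.1 hi).2]
  have h2 : #{i ∈ S | orderOf (g ^ e i) = T} ≤ T := by
    refine le_trans (card_le_card_of_injOn (fun i => g ^ e i)
      (t := univ.filter fun u : (ZMod p)ˣ => u ^ T = 1) ?_ ?_) (IsCyclic.card_pow_eq_one_le (by omega))
    · intro i hi
      rw [mem_coe, mem_filter] at hi
      rw [mem_coe, mem_filter]
      refine ⟨mem_univ _, ?_⟩
      simp only
      rw [← hi.2, pow_orderOf_eq_one]
    · intro i _ j _ h
      apply he
      exact pow_injOn_Iio_orderOf (by rw [hg]; exact hep i) (by rw [hg]; exact hep j) h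
  rw [h1]
  calc (#{i ∈ S | orderOf (g ^ e i) = T} : ℝ) * ((T : ℝ) ^ 3)⁻¹ ≤ T * ((T : ℝ) ^ 3)⁻¹ := by
        refine mul_le_mul_of_nonneg_right ?_ (by positivity)
        exact_mod_cast h2
    _ = ((T : ℝ) ^ 2)⁻¹ := by
        rw [pow_succ, mul_inv, mul_comm, mul_assoc, inv_mul_cancel₀ hT0.ne', mul_one]

end

theorem rpow_frac (q : ℕ) (ε : ℝ) (hε : 0 < ε) : ∃ P : ℕ, ∀ p : ℕ, P ≤ p → ∀ n : ℕ, p = 2 * n + 1 →
    Nat.sqrt p < n ∧ ((n : ℝ) / (n - Nat.sqrt p)) ^ q ≤ 1 + ε := by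
  obtain ⟨η, hη0, hη⟩ : ∃ η : ℝ, 0 < η ∧ (1 + η) ^ q ≤ 1 + ε := by
    have h1 : Tendsto (fun η : ℝ => (1 + η) ^ q) (nhdsWithin 0 (Set.Ioi 0)) (nhds ((1 + 0) ^ q)) :=
      ((by fun_prop : Continuous fun η : ℝ => (1 + η) ^ q).tendsto 0).mono_left nhdsWithin_le_nhds
    rw [add_zero, one_pow] at h1
    obtain ⟨η, h2, h3⟩ := ((h1.eventually_le_const (by linarith : (1 : ℝ) < 1 + ε)).and
      self_mem_nhdsWithin).exists
    exact ⟨η, h3, h2⟩
  obtain ⟨θ, hθ⟩ : ∃ θ, θ = η / (1 + η) := ⟨_, rfl⟩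
  have hθ0 : 0 < θ := by rw [hθ]; positivity
  have hθ1 : θ < 1 := by rw [hθ, div_lt_one (by positivity)]; linarith
  obtain ⟨N, hN⟩ := exists_nat_ge (3 / θ ^ 2)
  refine ⟨2 * N + 5, fun p hp n hn => ?_⟩
  have hnN : N < n := by omega
  have hn0 : (0 : ℝ) < n := by exact_mod_cast (by omega : 0 < n)
  have hNn : (N : ℝ) ≤ n := by exact_mod_cast hnN.le
  have h1 : Nat.sqrt p ^ 2 ≤ 3 * n := by
    have := Nat.sqrt_le' p
    omega
  have h2 : (Nat.sqrt p : ℝ) ^ 2 ≤ 3 * n := by exact_mod_cast h1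
  have h3 : (Nat.sqrt p : ℝ) ≤ θ * n := by
    refine (sq_le_sq₀ (Nat.cast_nonneg _) (by positivity)).1 ?_
    rw [div_le_iff₀ (by positivity)] at hN
    calc (Nat.sqrt p : ℝ) ^ 2 ≤ 3 * n := h2
      _ ≤ (N * θ ^ 2) * n := mul_le_mul_of_nonneg_right hN hn0.le
      _ ≤ (n * θ ^ 2) * n := by
        refine mul_le_mul_of_nonneg_right (mul_le_mul_of_nonneg_right hNn (by positivity)) hn0.le
      _ = _ := by ring
  have h4 : (Nat.sqrt p : ℝ) < n := h3.trans_lt (by nlinarith)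
  refine ⟨by exact_mod_cast h4, le_trans (pow_le_pow_left₀ ?_ ?_ q) hη⟩
  · exact div_nonneg hn0.le (by linarith)
  · rw [div_le_iff₀ (by linarith)]
    have h5 : (1 + η) * (Nat.sqrt p : ℝ) ≤ η * n := by
      calc (1 + η) * (Nat.sqrt p : ℝ) ≤ (1 + η) * (θ * n) := mul_le_mul_of_nonneg_left h3 (by positivity)
        _ = η * n := by rw [hθ]; field_simp
    linarith

theorem many_small (κ : ℝ) (hκ : 0 < κ) : ∃ P : ℕ, ∀ p : ℕ, P ≤ p →
    Real.exp (Real.log p ^ 6 / 2) / 2 ^ (Nat.sqrt p) ≤ κ := by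
  have h1 : (fun x : ℝ => Real.log x ^ (6 : ℝ)) =o[atTop] fun x => x ^ (1 / 2 : ℝ) :=
    isLittleO_log_rpow_rpow_atTop 6 (by norm_num)
  have h2 : ∀ᶠ x : ℝ in atTop, ‖Real.log x ^ (6 : ℝ)‖ ≤ 1 / 2 * ‖x ^ (1 / 2 : ℝ)‖ :=
    h1.def (by norm_num)
  have h3 : Tendsto (fun x : ℝ => 2 * Real.exp (-(x ^ (1 / 2 : ℝ) / 4))) atTop (nhds (2 * 0)) := by
    refine Tendsto.const_mul _ (Real.tendsto_exp_neg_atTop_nhds_zero.comp ?_)
    exact Tendsto.atTop_div_const (by norm_num) (tendsto_rpow_atTop (by norm_num))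
  rw [mul_zero] at h3
  have h4 := tendsto_natCast_atTop_atTop (R := ℝ) |>.eventually
    (h2.and ((h3.eventually_le_const hκ).and (eventually_ge_atTop 1)))
  obtain ⟨P, hP⟩ := eventually_atTop.1 h4
  refine ⟨P, fun p hp => ?_⟩
  obtain ⟨h5, h6, h7⟩ := hP p hp
  rw [← Real.sqrt_eq_rpow] at h5 h6
  rw [Real.norm_eq_abs, Real.norm_eq_abs, abs_of_nonneg (Real.sqrt_nonneg _)] at h5
  have h8 : Real.log p ^ 6 ≤ 1 / 2 * Real.sqrt p := by
    have : Real.log p ^ (6 : ℝ) = Real.log p ^ 6 := by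
      rw [show (6 : ℝ) = ((6 : ℕ) : ℝ) by norm_num, Real.rpow_natCast]
    rw [this] at h5
    exact (le_abs_self _).trans h5
  have h9 : Real.sqrt p ≤ Nat.sqrt p + 1 := by
    rw [Real.sqrt_le_left (by positivity)]
    have := Nat.lt_succ_sqrt' p
    have h10 : (p : ℝ) ≤ ((Nat.sqrt p + 1 : ℕ) : ℝ) ^ 2 := by exact_mod_cast this.le
    push_cast at h10
    exact h10
  refine le_trans ?_ h6
  rw [div_le_iff₀ (by positivity)]
  have h10 : (2 : ℝ) ^ (Nat.sqrt p) = Real.exp (Nat.sqrt p * Real.log 2) := by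
    rw [mul_comm, Real.exp_mul, Real.exp_log (by norm_num), Real.rpow_natCast]
  have h11 : (2 : ℝ) = Real.exp (Real.log 2) := (Real.exp_log (by norm_num)).symm
  rw [h10]
  nth_rewrite 2 [h11]
  rw [← Real.exp_add, ← Real.exp_add]
  apply Real.exp_le_exp.2
  have h12 := Real.log_two_gt_d9
  have h13 : Real.sqrt p * Real.log 2 ≤ (Nat.sqrt p + 1) * Real.log 2 :=
    mul_le_mul_of_nonneg_right h9 (by linarith)
  have h14 : Real.sqrt p * 0.6931471803 ≤ Real.sqrt p * Real.log 2 :=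
    mul_le_mul_of_nonneg_left h12.le (Real.sqrt_nonneg _)
  have := Real.sqrt_nonneg (p : ℝ)
  nlinarith

/-- The probability that some sum vanishes, for random sets with few elements. -/
theorem reg_few (ε : ℝ) (hε : 0 < ε) : ∃ M P : ℕ, ∀ p : ℕ, P ≤ p →
    ∀ _hp : Fact p.Prime, ∀ δ : ℝ, M / p ≤ δ → δ ≤ 1 / 2 → δ ≤ Real.log p ^ 6 / p →
      ∀ (ι : Type) [Fintype ι] [DecidableEq ι] (e : ι → ℕ), (∀ i, Odd (e i)) →
      Function.Injective e → (∀ i, e i < p - 1) → Fintype.card ι ≤ p →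
      ∀ c : ZMod p, c ≠ 0 → ∀ s : ℕ → ZMod p, (∀ a, s a = 1 ∨ s a = -1) → ∀ β : ι → ZMod p,
      ∑ A ∈ (Finset.Icc 1 ((p - 1) / 2)).powerset,
          (if Zc e c s β A = 0 then 0 else wt δ ((p - 1) / 2) A) ≤ Fintype.card ι / p + ε := by
  classical
  obtain ⟨κ, hκ, hκε, hκ1⟩ : ∃ κ : ℝ, 0 < κ ∧ 10 * κ ≤ ε ∧ κ ≤ 1 :=
    ⟨min (ε / 10) 1, by positivity, by linarith [min_le_left (ε / 10) 1], min_le_right _ _⟩
  obtain ⟨q, C, hC, T₁, P₁, hidx⟩ := idx κ hκ
  obtain ⟨T₂, hT₂⟩ := exists_nat_ge (2 * C / κ)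
  obtain ⟨T₀, hT₀⟩ : ∃ T₀ : ℕ, T₀ = max (max T₁ T₂) 1 := ⟨_, rfl⟩
  have hT₀1 : 1 ≤ T₀ := hT₀ ▸ le_max_right _ _
  have hT₀2 : T₁ ≤ T₀ := hT₀ ▸ (le_max_left _ _).trans (le_max_left _ _)
  have hT₀3 : C * (2 / (T₀ + 1)) ≤ κ := by
    have h1 : (T₂ : ℝ) ≤ T₀ := by exact_mod_cast hT₀ ▸ (le_max_right _ _).trans (le_max_left _ _)
    rw [mul_div_assoc', div_le_iff₀ (by positivity)]
    rw [div_le_iff₀ hκ] at hT₂
    nlinarith
  -- the number K
  obtain ⟨K, hK1, hK⟩ : ∃ K : ℕ, 1 ≤ K ∧ ((T₀ : ℝ) ^ 2 * (2 / K) ≤ κ ∧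
      (T₀ : ℝ) ^ 2 * Real.exp (-(K ^ 2 / T₀)) ≤ κ ∧ 2 ^ q * Real.exp (-((K : ℝ) ^ 4 / 6)) ≤ κ) := by
    have h1 : Tendsto (fun K : ℕ => (T₀ : ℝ) ^ 2 * (2 / (K : ℝ))) atTop (nhds ((T₀ : ℝ) ^ 2 * 0)) :=
      (tendsto_const_nhds.div_atTop tendsto_natCast_atTop_atTop).const_mul _
    have h2 : Tendsto (fun K : ℕ => (T₀ : ℝ) ^ 2 * Real.exp (-((K : ℝ) ^ 2 / T₀))) atTop
        (nhds ((T₀ : ℝ) ^ 2 * 0)) := by
      refine Tendsto.const_mul _ (Real.tendsto_exp_neg_atTop_nhds_zero.comp ?_)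
      refine Tendsto.atTop_div_const (by positivity) ?_
      exact (tendsto_pow_atTop two_ne_zero).comp tendsto_natCast_atTop_atTop
    have h3 : Tendsto (fun K : ℕ => (2 : ℝ) ^ q * Real.exp (-((K : ℝ) ^ 4 / 6))) atTop
        (nhds ((2 : ℝ) ^ q * 0)) := by
      refine Tendsto.const_mul _ (Real.tendsto_exp_neg_atTop_nhds_zero.comp ?_)
      refine Tendsto.atTop_div_const (by positivity) ?_
      exact (tendsto_pow_atTop four_ne_zero).comp tendsto_natCast_atTop_atTop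
    rw [mul_zero] at h1 h2 h3
    obtain ⟨K, h4, h5, h6, h7⟩ := ((eventually_ge_atTop 1).and ((h1.eventually_le_const hκ).and
      ((h2.eventually_le_const hκ).and (h3.eventually_le_const hκ)))).exists
    exact ⟨K, h4, h5, h6, h7⟩
  obtain ⟨P₂, hP₂⟩ := rpow_frac q κ hκ
  obtain ⟨P₃, hP₃⟩ := many_small κ hκ
  obtain ⟨P₄, hP₄⟩ := exists_nat_ge (4 * (T₀ : ℝ) ^ 2 / κ)
  refine ⟨K ^ 4, max (max P₁ P₂) (max (max P₃ P₄) 5), fun p hp hpf δ hδ0 hδ1 hδ2 ι _ _ e heo hei hep hcard c hc s hs β => ?_⟩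
  have hpp := hpf.out
  have hp1 : P₁ ≤ p := ((le_max_left _ _).trans (le_max_left _ _)).trans hp
  have hp2 : P₂ ≤ p := ((le_max_right _ _).trans (le_max_left _ _)).trans hp
  have hp3 : P₃ ≤ p := ((le_max_left _ _).trans ((le_max_left _ _).trans (le_max_right _ _))).trans hp
  have hp4 : P₄ ≤ p := ((le_max_right _ _).trans ((le_max_left _ _).trans (le_max_right _ _))).trans hp
  have hp5 : 5 ≤ p := ((le_max_right _ _).trans (le_max_right _ _)).trans hp
  have hp0 : (0 : ℝ) < p := by exact_mod_cast hpp.pos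
  obtain ⟨n, hn⟩ : ∃ n, n = (p - 1) / 2 := ⟨_, rfl⟩
  have hpn : p = 2 * n + 1 := by
    rcases hpp.eq_two_or_odd with h | h
    · omega
    · omega
  rw [← hn]
  have hn0 : 0 < n := by omega
  obtain ⟨g, hg⟩ : ∃ g : (ZMod p)ˣ, orderOf g = p - 1 := by
    obtain ⟨g, hg⟩ := IsCyclic.exists_generator (α := (ZMod p)ˣ)
    refine ⟨g, ?_⟩
    rw [orderOf_eq_card_of_forall_mem_zpowers hg, Nat.card_eq_fintype_card, ZMod.card_units]
  have hδ : 0 ≤ δ := le_trans (by positivity) hδ0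
  obtain ⟨L, hL⟩ : ∃ L, L = Nat.sqrt p := ⟨_, rfl⟩
  obtain ⟨hLn, hρ⟩ := hP₂ p hp2 n hpn
  rw [← hL] at hLn hρ
  -- the four parts
  set Sm := univ.filter (fun i => ¬ T₀ < orderOf (g ^ e i)) with hSm
  set Bg := univ.filter (fun i => T₀ < orderOf (g ^ e i)) with hBg
  have hpt : ∀ A ∈ (Finset.Icc 1 n).powerset, (if Zc e c s β A = 0 then 0 else wt δ n A) ≤
      (if #A < q then wt δ n A else 0) + (if L < #A then wt δ n A else 0) +
      ∑ i ∈ Sm, (if β i + c * ∑ a ∈ A, s a * (a : ZMod p) ^ e i = 0 then wt δ n A else 0) +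
      ∑ i ∈ Bg, (if (q ≤ #A ∧ #A ≤ L) ∧ ∑ a ∈ A, vv c s (e i) a = -β i then wt δ n A else 0) := by
    intro A _
    have hw := wt_nonneg hδ hδ1 n A
    have n1 : 0 ≤ (if #A < q then wt δ n A else 0) := by split_ifs <;> simp [hw]
    have n2 : 0 ≤ (if L < #A then wt δ n A else 0) := by split_ifs <;> simp [hw]
    have n3 : ∀ i, 0 ≤ (if β i + c * ∑ a ∈ A, s a * (a : ZMod p) ^ e i = 0 then wt δ n A else 0) := by
      intro i; split_ifs <;> simp [hw]
    have n4 : ∀ i, 0 ≤ (if (q ≤ #A ∧ #A ≤ L) ∧ ∑ a ∈ A, vv c s (e i) a = -β i then wt δ n A else 0) := by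
      intro i; split_ifs <;> simp [hw]
    have N3 := sum_nonneg (s := Sm) fun i _ => n3 i
    have N4 := sum_nonneg (s := Bg) fun i _ => n4 i
    by_cases hZ : Zc e c s β A = 0
    · rw [if_pos hZ]; linarith
    rw [if_neg hZ]
    obtain ⟨i, hi⟩ : ∃ i, Sieg.X e c s β A i = 0 := by
      by_contra h
      push Not at h
      apply hZ
      unfold Zc
      rw [card_eq_zero, filter_eq_empty_iff]
      intro i _
      exact h i
    unfold Sieg.X at hi
    by_cases hs1 : #A < q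
    · rw [if_pos hs1]; linarith
    by_cases hs2 : L < #A
    · rw [if_pos hs2]; linarith
    by_cases hT : T₀ < orderOf (g ^ e i)
    · have h1 : (if (q ≤ #A ∧ #A ≤ L) ∧ ∑ a ∈ A, vv c s (e i) a = -β i then wt δ n A else 0) = wt δ n A := by
        rw [if_pos]
        refine ⟨⟨by omega, by omega⟩, ?_⟩
        unfold vv
        rw [← mul_sum]
        linear_combination hi
      have h2 := single_le_sum (f := fun i => (if (q ≤ #A ∧ #A ≤ L) ∧ ∑ a ∈ A, vv c s (e i) a = -β i then wt δ n A else 0))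
        (fun i _ => n4 i) (show i ∈ Bg from mem_filter.2 ⟨mem_univ _, hT⟩)
      simp only [h1] at h2
      linarith
    · have h2 := single_le_sum (f := fun i => (if β i + c * ∑ a ∈ A, s a * (a : ZMod p) ^ e i = 0 then wt δ n A else 0))
        (fun i _ => n3 i) (show i ∈ Sm from mem_filter.2 ⟨mem_univ _, hT⟩)
      simp only [hi, if_true] at h2
      linarith
  refine (sum_le_sum hpt).trans ?_
  rw [sum_add_distrib, sum_add_distrib, sum_add_distrib]
  -- part 1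
  have b1 := few δ hδ hδ1 n q
  have b1' : 2 ^ q * Real.exp (-(δ * n / 2)) ≤ κ := by
    refine le_trans ?_ hK.2.2
    refine mul_le_mul_of_nonneg_left ?_ (by positivity)
    apply Real.exp_le_exp.2
    rw [neg_le_neg_iff]
    have h1 : (K : ℝ) ^ 4 / p * n ≤ δ * n := by
      refine mul_le_mul_of_nonneg_right ?_ (Nat.cast_nonneg _)
      refine le_trans (le_of_eq ?_) hδ0
      push_cast
      rfl
    have h2 : (1 : ℝ) / 3 ≤ n / p := by
      rw [div_le_div_iff₀ (by norm_num) hp0]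
      have : p ≤ 3 * n := by omega
      have : (p : ℝ) ≤ 3 * n := by exact_mod_cast this
      linarith
    have h3 : (K : ℝ) ^ 4 * (1 / 3) ≤ (K : ℝ) ^ 4 * (n / p) := mul_le_mul_of_nonneg_left h2 (by positivity)
    have h4 : (K : ℝ) ^ 4 / p * n = (K : ℝ) ^ 4 * (n / p) := by ring
    linarith
  -- part 2
  have b2 := many δ hδ hδ1 n L
  have b2' : Real.exp (δ * n) / 2 ^ L ≤ κ := by
    refine le_trans ?_ (hP₃ p hp3)
    rw [hL]
    refine div_le_div_of_nonneg_right ?_ (by positivity)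
    apply Real.exp_le_exp.2
    calc δ * n ≤ Real.log p ^ 6 / p * (p / 2) := by
          refine mul_le_mul hδ2 ?_ (Nat.cast_nonneg _) ?_
          · rw [hpn]; push_cast; linarith
          · exact hδ.trans hδ2
      _ = _ := by field_simp
  -- part 3
  have b3 : ∑ A ∈ (Finset.Icc 1 n).powerset,
      ∑ i ∈ Sm, (if β i + c * ∑ a ∈ A, s a * (a : ZMod p) ^ e i = 0 then wt δ n A else 0) ≤ 3 * κ := by
    rw [sum_comm]
    obtain ⟨V, hV⟩ : ∃ V, V = p / K + 1 := ⟨_, rfl⟩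
    have hK0 : (0 : ℝ) < K := by exact_mod_cast hK1
    have hV1 : (p : ℝ) / K ≤ V := by
      rw [div_le_iff₀ hK0]
      have : p < (p / K + 1) * K := by
        have := Nat.div_add_mod p K
        have h2 := Nat.mod_lt p (by omega : K > 0)
        nlinarith
      rw [← hV] at this
      exact_mod_cast this.le
    have hV2 : (V : ℝ) ≤ p / K + 1 := by
      rw [hV]
      push_cast
      have := Nat.cast_div_le (α := ℝ) (m := p) (n := K)
      linarith
    have h1 : ∀ i ∈ Sm, ∑ A ∈ (Finset.Icc 1 n).powerset,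
        (if β i + c * ∑ a ∈ A, s a * (a : ZMod p) ^ e i = 0 then wt δ n A else 0) ≤
        (2 / K + 4 / p) + Real.exp (-(K ^ 2 / T₀)) := by
      intro i hi
      have hTi : orderOf (g ^ e i) ≤ T₀ := not_lt.1 (mem_filter.1 hi).2
      have hTi0 : (0 : ℝ) < orderOf (g ^ e i) := by exact_mod_cast orderOf_pos _
      refine (single_small hg δ hδ hδ1 n hpn (e i) (heo i) c hc s hs (β i) V).trans ?_
      refine add_le_add ?_ ?_
      · calc (2 * (V : ℝ) + 2) / p ≤ (2 * (p / K + 1) + 2) / p := by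
              refine div_le_div_of_nonneg_right ?_ hp0.le
              linarith
          _ = _ := by field_simp; ring
      · apply Real.exp_le_exp.2
        rw [neg_le_neg_iff]
        have h2 : (1 : ℝ) / p ≤ 2 * ((p - 1 : ℕ) : ℝ) / p ^ 2 := by
          rw [div_le_div_iff₀ hp0 (by positivity)]
          have : p ≤ 2 * (p - 1) := by omega
          have : (p : ℝ) ≤ 2 * ((p - 1 : ℕ) : ℝ) := by exact_mod_cast this
          nlinarith
        have h3 : (K : ℝ) ^ 4 / p ≤ δ := by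
          refine le_trans (le_of_eq ?_) hδ0
          push_cast
          rfl
        have h4 : ((p : ℝ) / K) ^ 2 ≤ (V : ℝ) ^ 2 := pow_le_pow_left₀ (by positivity) hV1 2
        have h5 : (K : ℝ) ^ 4 / p * (1 / p) * ((p : ℝ) / K) ^ 2 ≤
            δ * (2 * ((p - 1 : ℕ) : ℝ) / p ^ 2) * (V : ℝ) ^ 2 :=
          mul_le_mul (mul_le_mul h3 h2 (by positivity) hδ) h4 (by positivity) (by positivity)
        have h6 : (K : ℝ) ^ 4 / p * (1 / p) * ((p : ℝ) / K) ^ 2 = K ^ 2 := by field_simp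
        rw [h6] at h5
        have hT₀r : (0 : ℝ) < T₀ := by exact_mod_cast hT₀1
        calc (K : ℝ) ^ 2 / T₀ ≤ (K : ℝ) ^ 2 / orderOf (g ^ e i) := by
              refine div_le_div_of_nonneg_left (by positivity) hTi0 ?_
              exact_mod_cast hTi
          _ ≤ (δ * (2 * ((p - 1 : ℕ) : ℝ) / p ^ 2) * (V : ℝ) ^ 2) / orderOf (g ^ e i) :=
              div_le_div_of_nonneg_right h5 hTi0.le
          _ = _ := by ring
    have h2 : #Sm ≤ T₀ ^ 2 := few_small e hg hei hep T₀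
    calc _ ≤ ∑ i ∈ Sm, ((2 / K + 4 / p) + Real.exp (-(K ^ 2 / T₀))) := sum_le_sum h1
      _ = #Sm * ((2 / K + 4 / p) + Real.exp (-(K ^ 2 / T₀))) := by rw [sum_const, nsmul_eq_mul]
      _ ≤ (T₀ : ℝ) ^ 2 * ((2 / K + 4 / p) + Real.exp (-(K ^ 2 / T₀))) := by
          refine mul_le_mul_of_nonneg_right ?_ (by positivity)
          exact_mod_cast h2
      _ = (T₀ : ℝ) ^ 2 * (2 / K) + 4 * (T₀ : ℝ) ^ 2 / p + (T₀ : ℝ) ^ 2 * Real.exp (-(K ^ 2 / T₀)) := by ring
      _ ≤ κ + κ + κ := by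
          refine add_le_add (add_le_add hK.1 ?_) hK.2.1
          rw [div_le_iff₀ hp0]
          rw [div_le_iff₀ hκ] at hP₄
          have : (P₄ : ℝ) ≤ p := by exact_mod_cast hp4
          nlinarith
      _ = 3 * κ := by ring
  -- part 4
  have b4 : ∑ A ∈ (Finset.Icc 1 n).powerset,
      ∑ i ∈ Bg, (if (q ≤ #A ∧ #A ≤ L) ∧ ∑ a ∈ A, vv c s (e i) a = -β i then wt δ n A else 0) ≤
      Fintype.card ι / p + 5 * κ := by
    rw [sum_comm]
    have h1 : ∀ i ∈ Bg, ∑ A ∈ (Finset.Icc 1 n).powerset,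
        (if (q ≤ #A ∧ #A ≤ L) ∧ ∑ a ∈ A, vv c s (e i) a = -β i then wt δ n A else 0) ≤
        (1 + κ) * ((1 + κ) / p + C * ((orderOf (g ^ e i) : ℝ) ^ 3)⁻¹) := by
      intro i hi
      have hTi : T₀ < orderOf (g ^ e i) := (mem_filter.1 hi).2
      refine (cond n (vv c s (e i)) L q hLn _
        (hidx p hp1 g hg n hpn c hc s hs (e i) (heo i) (by omega)) δ hδ hδ1 (-β i)).trans ?_
      exact mul_le_mul_of_nonneg_right hρ (by positivity)
    refine (sum_le_sum h1).trans ?_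
    rw [← mul_sum, sum_add_distrib, sum_const, nsmul_eq_mul, ← mul_sum]
    have h2 := large_orders e hg hei hep T₀ hT₀1
    have h3 : (#Bg : ℝ) ≤ Fintype.card ι := by exact_mod_cast card_le_univ Bg
    have h4 : (Fintype.card ι : ℝ) / p ≤ 1 := by
      rw [div_le_one hp0]
      exact_mod_cast hcard
    calc (1 + κ) * (#Bg * ((1 + κ) / p) + C * ∑ i ∈ Bg, ((orderOf (g ^ e i) : ℝ) ^ 3)⁻¹)
        ≤ (1 + κ) * (Fintype.card ι * ((1 + κ) / p) + C * (2 / (T₀ + 1))) := by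
          refine mul_le_mul_of_nonneg_left (add_le_add ?_ ?_) (by positivity)
          · exact mul_le_mul_of_nonneg_right h3 (by positivity)
          · exact mul_le_mul_of_nonneg_left h2 hC
      _ ≤ (1 + κ) * (Fintype.card ι * ((1 + κ) / p) + κ) := by
          refine mul_le_mul_of_nonneg_left (add_le_add le_rfl hT₀3) (by positivity)
      _ = (Fintype.card ι : ℝ) / p * (1 + κ) ^ 2 + (1 + κ) * κ := by ring
      _ = (Fintype.card ι : ℝ) / p + (Fintype.card ι : ℝ) / p * (2 * κ + κ ^ 2) + (1 + κ) * κ := by ring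
      _ ≤ (Fintype.card ι : ℝ) / p + 1 * (2 * κ + κ ^ 2) + (1 + κ) * κ := by
          have := mul_le_mul_of_nonneg_right h4 (by positivity : 0 ≤ 2 * κ + κ ^ 2)
          linarith
      _ ≤ _ := by nlinarith
  linarith [b1.trans b1', b2.trans b2']

end Pool.Agent.H555.Few
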